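import Pool.Agent.Lib.MP_39b545_nt.Long.Primes

/-!
# The number of long chains: explicit bound
-/

set_option autoImplicit false

namespace Pool.Agent.Lib.MP_39b545_nt.Long

open Finset Pool.Agent.Lib.MP_d5700b_nt

/-- The numbers `n < X`, `n > 4w²`, with `2^i n + 1` prime for all `i < w`. -/
noncomputable def SS (w X : ℕ) : Finset ℕ := by
  classical
  exact (range X).filter (fun n => 4 * w ^ 2 < n ∧ ∀ i < w, (2 ^ i * n + 1).Prime)

theorem SS_ind (w X : ℕ) : ∀ x ∈ SS w X, x < X ∧ ∀ l ∈ Lam w, Ind w l x = 1 := by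
  classical
  intro x hx
  rw [SS, mem_filter, mem_range] at hx
  refine ⟨hx.1, ?_⟩
  intro l hl
  rw [mem_Lam] at hl
  unfold Ind
  rw [if_neg]
  rintro ⟨i, hi, hdvd⟩
  have h1 := hx.2.2 i hi
  have h2 := (Nat.dvd_prime h1).1 hdvd
  have h3 : 1 * x ≤ 2 ^ i * x := Nat.mul_le_mul_right x Nat.one_le_two_pow
  have h4 := hl.2.1.one_lt
  rcases h2 with h2 | h2 <;> omega

theorem SS_sieve (w X K g u : ℕ) (hw : 2 ≤ w) (hK : 1 ≤ K) (hg : 1 ≤ g) (hX : X ≤ 2 * K * g)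
    (hc : u ≤ (Lam w).card) :
    ((SS w X).card : ℝ) ≤
      ((4 * K * g : ℕ) : ℝ) ^ K / (2 * g : ℝ) ^ (K - 1) *
        ((16 * w : ℝ) ^ u / ((Lam w).card.choose u : ℝ)) +
      2 * ((4 * (w : ℝ) ^ 2) ^ (2 * u)) ^ (K + 1) / (2 * g : ℝ) ^ (K - 1) := by
  have hw1 : (1 : ℝ) ≤ w := by exact_mod_cast (by omega : 1 ≤ w)
  have hw2 : 1 ≤ w ^ 2 := Nat.one_le_pow _ _ (by omega)
  have h := large_sieve (Lam w) (fun l hl => (mem_Lam.1 hl).2.1) (4 * w ^ 2) (by omega)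
    (fun l hl => (mem_Lam.1 hl).1.2) w (w ^ 2) hw2 (fun l hl => (mem_Lam.1 hl).1.1.le)
    (by nlinarith) (Ind w) (fun l _ => Ind_per w l) (fun l x => Ind_zero_or_one w l x)
    (fun l hl => Ind_sum w l (mem_Lam.1 hl).2.1 (by
      have := (mem_Lam.1 hl).1.1
      nlinarith) (mem_Lam.1 hl).2.2) u K g X hK hg hX (SS w X) (SS_ind w X)
  set c : ℝ := ((Lam w).card.choose u : ℝ) with hcdef
  have hc0 : 0 < c := by
    rw [hcdef]
    exact_mod_cast Nat.choose_pos hc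
  set G : ℝ := (2 * g : ℝ) ^ (K - 1) with hG
  have hg1 : (1 : ℝ) ≤ g := by exact_mod_cast hg
  have hG0 : 0 < G := by positivity
  push_cast at h
  have e1 : ((w : ℝ) / (4 * (w : ℝ) ^ 2)) = 1 / (4 * w) := by field_simp
  have e2 : ((w : ℝ) / ((w : ℝ) ^ 2)) = 1 / w := by field_simp
  rw [e1, e2] at h
  have e3 : ((1 / (4 * w : ℝ)) ^ u * c) ^ 2 = c ^ 2 / (16 * (w : ℝ) ^ 2) ^ u := by
    rw [mul_pow, ← pow_mul, mul_comm u 2, pow_mul, div_pow, one_pow, mul_pow, div_pow, one_pow]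
    norm_num
    ring
  rw [e3] at h
  have hwu : (0 : ℝ) < (16 * (w : ℝ) ^ 2) ^ u := by positivity
  have h2 : ((SS w X).card : ℝ) ≤ (c * (4 * (K : ℝ) * g) ^ K * (1 / w) ^ u +
      c ^ 2 * (2 * ((4 * (w : ℝ) ^ 2) ^ (2 * u)) ^ K)) * (16 * (w : ℝ) ^ 2) ^ u / (G * c ^ 2) := by
    rw [le_div_iff₀ (by positivity)]
    calc ((SS w X).card : ℝ) * (G * c ^ 2) =
        ((SS w X).card * G * (c ^ 2 / (16 * (w : ℝ) ^ 2) ^ u)) * (16 * (w : ℝ) ^ 2) ^ u := by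
          field_simp
      _ ≤ _ := mul_le_mul_of_nonneg_right h hwu.le
  refine h2.trans ?_
  have e4 : (c * (4 * (K : ℝ) * g) ^ K * (1 / w) ^ u +
      c ^ 2 * (2 * ((4 * (w : ℝ) ^ 2) ^ (2 * u)) ^ K)) * (16 * (w : ℝ) ^ 2) ^ u / (G * c ^ 2) =
      (4 * (K : ℝ) * g) ^ K / G * ((16 * w : ℝ) ^ u / c) +
      2 * ((4 * (w : ℝ) ^ 2) ^ (2 * u)) ^ K * (16 * (w : ℝ) ^ 2) ^ u / G := by
    have e5 : (1 / (w : ℝ)) ^ u * (16 * (w : ℝ) ^ 2) ^ u = (16 * w : ℝ) ^ u := by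
      rw [← mul_pow]
      congr 1
      field_simp
    rw [← e5]
    field_simp
  rw [e4]
  push_cast
  apply add_le_add le_rfl
  apply div_le_div_of_nonneg_right _ hG0.le
  rw [pow_succ _ K, ← mul_assoc]
  apply mul_le_mul_of_nonneg_left _ (by positivity)
  rw [pow_mul (4 * (w : ℝ) ^ 2) 2 u]
  apply pow_le_pow_left₀ (by positivity)
  have hw3 : (1 : ℝ) ≤ (w : ℝ) ^ 2 := one_le_pow₀ hw1
  nlinarith

theorem choose_ge (P u : ℕ) (hu : 1 ≤ u) (h : 2 * u ≤ P) :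
    ((P : ℝ) / (2 * u)) ^ u ≤ (P.choose u : ℝ) := by
  have h1 : ((P + 1 - u : ℕ) : ℝ) ^ u ≤ (u.factorial : ℝ) * P.choose u := by
    have := Nat.pow_le_choose (α := ℝ) u P
    rwa [div_le_iff₀' (by positivity)] at this
  have h2 : (u.factorial : ℝ) ≤ (u : ℝ) ^ u := by exact_mod_cast Nat.factorial_le_pow u
  have h3 : (P : ℝ) / 2 ≤ ((P + 1 - u : ℕ) : ℝ) := by
    have : P ≤ 2 * (P + 1 - u) := by omega
    have : (P : ℝ) ≤ 2 * ((P + 1 - u : ℕ) : ℝ) := by exact_mod_cast this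
    linarith
  have hu0 : (0 : ℝ) < u := by exact_mod_cast hu
  have h4 : ((P : ℝ) / 2) ^ u ≤ (u : ℝ) ^ u * P.choose u := by
    calc ((P : ℝ) / 2) ^ u ≤ ((P + 1 - u : ℕ) : ℝ) ^ u := pow_le_pow_left₀ (by positivity) h3 u
      _ ≤ _ := h1
      _ ≤ _ := mul_le_mul_of_nonneg_right h2 (by positivity)
  have h5 : ((P : ℝ) / (2 * u)) ^ u = ((P : ℝ) / 2) ^ u / (u : ℝ) ^ u := by
    rw [← div_pow]
    congr 1
    field_simp
  rw [h5, div_le_iff₀ (by positivity)]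
  linarith

/-- Explicit form of the bound. -/
theorem SS_bound : ∃ w₀ : ℕ, ∀ w ≥ w₀, ∀ X K u : ℕ, 1 ≤ K → 4 * K ≤ X → 1 ≤ u →
    4 * u * Real.log (4 * (w : ℝ) ^ 2) ≤ (w : ℝ) ^ 2 →
    ((SS w X).card : ℝ) ≤
      3 * (2 * K : ℝ) ^ (K - 1) * X * (64 * u * Real.log (4 * (w : ℝ) ^ 2) / w) ^ u +
      2 * (K : ℝ) ^ (K - 1) * (((4 * (w : ℝ) ^ 2) ^ (2 * u)) ^ (K + 1) / (X : ℝ) ^ (K - 1)) := by
  obtain ⟨w₁, hw₁⟩ := Lam_card_ge
  refine ⟨max w₁ 2, fun w hw X K u hK hKX hu hlog => ?_⟩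
  have hw2 : 2 ≤ w := (le_max_right _ _).trans hw
  have hP := hw₁ w ((le_max_left _ _).trans hw)
  set P := (Lam w).card with hPdef
  set L := Real.log (4 * (w : ℝ) ^ 2) with hL
  have hwr : (2 : ℝ) ≤ w := by exact_mod_cast hw2
  have hL0 : 0 < L := by
    rw [hL]
    apply Real.log_pos
    nlinarith
  have hu0 : (0 : ℝ) < u := by exact_mod_cast hu
  have hP2 : (2 * u : ℝ) ≤ P := by
    refine le_trans ?_ hP
    rw [le_div_iff₀ (by positivity)]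
    linarith
  have hP2' : 2 * u ≤ P := by exact_mod_cast hP2
  set g := X / (2 * K) + 1 with hg
  have hg1 : X ≤ 2 * K * g := by
    have := Nat.lt_mul_div_succ X (show 0 < 2 * K by omega)
    rw [hg]
    exact this.le
  have hg2 : 4 * K * g ≤ 3 * X := by
    have h1 : 2 * K * (X / (2 * K)) ≤ X := Nat.mul_div_le X (2 * K)
    have h2 : 4 * K * g = 2 * (2 * K * (X / (2 * K))) + 4 * K := by rw [hg]; ring
    omega
  have hgpos : 1 ≤ g := by rw [hg]; exact Nat.succ_le_succ (Nat.zero_le _)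
  have h := SS_sieve w X K g u hw2 hK hgpos hg1 (by omega)
  rw [← hPdef] at h
  have hch := choose_ge P u hu hP2'
  have hgr : (0 : ℝ) < g := by exact_mod_cast hgpos
  have hKr : (1 : ℝ) ≤ K := by exact_mod_cast hK
  have hXr : (0 : ℝ) < X := by exact_mod_cast (by omega : 0 < X)
  have hgX : (X : ℝ) / K ≤ 2 * g := by
    rw [div_le_iff₀ (by positivity)]
    have : (X : ℝ) ≤ 2 * K * g := by exact_mod_cast hg1
    linarith
  have hP0 : (0 : ℝ) < P := by linarith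
  -- first term
  have ha : ((4 * K * g : ℕ) : ℝ) ^ K / (2 * g : ℝ) ^ (K - 1) ≤ 3 * (2 * K : ℝ) ^ (K - 1) * X := by
    have e1 : ((4 * K * g : ℕ) : ℝ) ^ K =
        (2 * K : ℝ) ^ (K - 1) * (2 * g : ℝ) ^ (K - 1) * ((4 * K * g : ℕ) : ℝ) := by
      have e0 : ∀ y : ℝ, y ^ K = y ^ (K - 1) * y := by
        intro y
        rw [← pow_succ, Nat.sub_add_cancel hK]
      rw [← mul_pow, e0]
      congr 2
      push_cast
      ring
    rw [e1, mul_assoc, mul_comm ((2 * g : ℝ) ^ (K - 1)), ← mul_assoc, mul_div_assoc,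
      div_self (by positivity), mul_one]
    have : ((4 * K * g : ℕ) : ℝ) ≤ 3 * X := by exact_mod_cast hg2
    calc (2 * K : ℝ) ^ (K - 1) * ((4 * K * g : ℕ) : ℝ) ≤ (2 * K : ℝ) ^ (K - 1) * (3 * X) :=
          mul_le_mul_of_nonneg_left this (by positivity)
      _ = _ := by ring
  have hb : (16 * w : ℝ) ^ u / (P.choose u : ℝ) ≤ (64 * u * L / w) ^ u := by
    have h1 : (16 * w : ℝ) ^ u / (P.choose u : ℝ) ≤ (16 * w : ℝ) ^ u / ((P : ℝ) / (2 * u)) ^ u :=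
      div_le_div_of_nonneg_left (by positivity) (by positivity) hch
    refine h1.trans ?_
    rw [← div_pow]
    apply pow_le_pow_left₀ (by positivity)
    rw [div_div_eq_mul_div, div_le_iff₀ hP0]
    have h2 : 64 * u * L / w * ((w : ℝ) ^ 2 / (2 * L)) ≤ 64 * u * L / w * P :=
      mul_le_mul_of_nonneg_left hP (by positivity)
    refine le_trans (le_of_eq ?_) h2
    field_simp
    norm_num
  have hc' : 2 * ((4 * (w : ℝ) ^ 2) ^ (2 * u)) ^ (K + 1) / (2 * g : ℝ) ^ (K - 1) ≤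
      2 * (K : ℝ) ^ (K - 1) * (((4 * (w : ℝ) ^ 2) ^ (2 * u)) ^ (K + 1) / (X : ℝ) ^ (K - 1)) := by
    have h1 : ((X : ℝ) / K) ^ (K - 1) ≤ (2 * g : ℝ) ^ (K - 1) :=
      pow_le_pow_left₀ (by positivity) hgX _
    calc 2 * ((4 * (w : ℝ) ^ 2) ^ (2 * u)) ^ (K + 1) / (2 * g : ℝ) ^ (K - 1)
        ≤ 2 * ((4 * (w : ℝ) ^ 2) ^ (2 * u)) ^ (K + 1) / ((X : ℝ) / K) ^ (K - 1) :=
          div_le_div_of_nonneg_left (by positivity) (by positivity) h1
      _ = _ := by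
          rw [div_pow]
          field_simp
  refine h.trans (add_le_add ?_ hc')
  exact mul_le_mul ha hb (by positivity) (by positivity)

end Pool.Agent.Lib.MP_39b545_nt.Long
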