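import Mathlib
import Pool.Agent.Lib.MP_d5700b_nt.Periodic

/-!
# Iterated averages of periodic functions
-/

set_option autoImplicit false

namespace Pool.Agent.Lib.MP_39b545_nt.Long

open Finset Pool.Agent.Lib.MP_d5700b_nt

/-- `it T k F y` is the sum of `F (y + s_1 + ... + s_k)` over `s_i < T`. -/
def it (T : ℕ) : ℕ → (ℕ → ℝ) → ℕ → ℝ
  | 0, F, y => F y
  | k + 1, F, y => ∑ z ∈ range T, it T k F (y + z)

theorem it_add (T k : ℕ) (F G : ℕ → ℝ) (y : ℕ) :
    it T k (fun x => F x + G x) y = it T k F y + it T k G y := by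
  induction k generalizing y with
  | zero => rfl
  | succ k ih => simp only [it, ih, sum_add_distrib]

theorem it_sum {ι : Type*} (T k : ℕ) (s : Finset ι) (F : ι → ℕ → ℝ) (y : ℕ) :
    it T k (fun x => ∑ i ∈ s, F i x) y = ∑ i ∈ s, it T k (F i) y := by
  induction k generalizing y with
  | zero => rfl
  | succ k ih =>
    simp only [it, ih]
    rw [sum_comm]

theorem it_mul (T k : ℕ) (c : ℝ) (F : ℕ → ℝ) (y : ℕ) :
    it T k (fun x => c * F x) y = c * it T k F y := by
  induction k generalizing y with
  | zero => rfl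
  | succ k ih => simp only [it, ih, mul_sum]

theorem it_const (T k : ℕ) (c : ℝ) (y : ℕ) : it T k (fun _ => c) y = (T : ℝ) ^ k * c := by
  induction k generalizing y with
  | zero => simp [it]
  | succ k ih =>
    simp only [it, ih, sum_const, card_range, nsmul_eq_mul]
    ring

theorem it_mono (T k : ℕ) (F G : ℕ → ℝ) (h : ∀ x, F x ≤ G x) (y : ℕ) :
    it T k F y ≤ it T k G y := by
  induction k generalizing y with
  | zero => exact h y
  | succ k ih => exact sum_le_sum fun z _ => ih (y + z)

/-- The sum over a period does not depend on the starting point. -/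
theorem sum_shift {F : ℕ → ℝ} {m : ℕ} (hF : Per F m) (y : ℕ) :
    ∑ z ∈ range m, F (y + z) = ∑ z ∈ range m, F z := by
  induction y with
  | zero => simp
  | succ y ih =>
    have h1 : ∑ z ∈ range (m + 1), F (y + z) = F (y + m) + ∑ z ∈ range m, F (y + z) := by
      rw [sum_range_succ, add_comm]
    have h2 : ∑ z ∈ range (m + 1), F (y + z) = ∑ z ∈ range m, F (y + 1 + z) + F y := by
      rw [sum_range_succ']
      simp only [add_zero]
      congr 1
      apply sum_congr rfl
      intro z _
      congr 1
      ring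
    have h3 : F (y + m) = F y := by
      have := hF.mul_add 1 y
      rwa [mul_one, add_comm] at this
    linarith

theorem per_add {F : ℕ → ℝ} {m : ℕ} (hF : Per F m) (y : ℕ) : Per (fun z => F (y + z)) m := by
  intro t
  have h1 : y + t = m * (t / m) + (y + t % m) := by
    conv_lhs => rw [← Nat.div_add_mod t m]
    ring
  change F (y + t % m) = F (y + t)
  rw [h1, hF.mul_add]

/-- A sum of a mean zero periodic function over any interval is bounded by a period. -/
theorem abs_sum_le {H : ℕ → ℝ} {m : ℕ} (hm : m ≠ 0) (hH : Per H m)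
    (h0 : ∑ z ∈ range m, H z = 0) {B : ℝ} (hB : ∀ x, |H x| ≤ B) (T y : ℕ) :
    |∑ z ∈ range T, H (y + z)| ≤ m * B := by
  have hB0 : 0 ≤ B := (abs_nonneg _).trans (hB 0)
  have hT : T = m * (T / m) + T % m := (Nat.div_add_mod T m).symm
  have hP := per_add hH y
  have h1 : ∑ z ∈ range T, H (y + z) = ∑ z ∈ range (T % m), H (y + z) := by
    conv_lhs => rw [hT, sum_range_add, sum_range_mul_per hP, sum_shift hH, h0, mul_zero, zero_add]
    apply sum_congr rfl
    intro z _
    have := hP.mul_add (T / m) z
    exact this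
  rw [h1]
  calc |∑ z ∈ range (T % m), H (y + z)| ≤ ∑ z ∈ range (T % m), |H (y + z)| :=
        abs_sum_le_sum_abs _ _
    _ ≤ ∑ _z ∈ range (T % m), B := sum_le_sum fun z _ => hB _
    _ = (T % m : ℕ) * B := by simp
    _ ≤ m * B := by
        apply mul_le_mul_of_nonneg_right _ hB0
        exact_mod_cast (Nat.mod_lt _ (Nat.pos_of_ne_zero hm)).le

theorem it_zero_mean (T : ℕ) {m : ℕ} (hm : m ≠ 0) (k : ℕ) : ∀ (H : ℕ → ℝ), Per H m →
    (∑ z ∈ range m, H z = 0) → ∀ B : ℝ, (∀ x, |H x| ≤ B) →
    Per (it T k H) m ∧ (∑ z ∈ range m, it T k H z = 0) ∧ ∀ x, |it T k H x| ≤ (m : ℝ) ^ k * B := by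
  induction k with
  | zero =>
    intro H h1 h2 B h3
    refine ⟨h1, h2, ?_⟩
    intro x
    simpa [it] using h3 x
  | succ k ih =>
    intro H h1 h2 B h3
    obtain ⟨a, b, c⟩ := ih H h1 h2 B h3
    refine ⟨?_, ?_, ?_⟩
    · intro t
      simp only [it]
      apply sum_congr rfl
      intro z _
      have := (per_add a z) t
      simp only at this
      rw [add_comm (t % m), add_comm t]
      exact this
    · simp only [it]
      rw [sum_comm]
      apply sum_eq_zero
      intro z _
      have := sum_shift a z
      rw [← b, ← this]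
      apply sum_congr rfl
      intro x _
      rw [add_comm]
    · intro x
      have := abs_sum_le hm a b c T x
      simp only [it]
      refine this.trans (le_of_eq ?_)
      ring

/-- Iterated averages of a bounded periodic function are close to its mean value. -/
theorem it_approx (T : ℕ) {m : ℕ} (hm : m ≠ 0) (k : ℕ) (F : ℕ → ℝ) (hF : Per F m)
    (hb : ∀ x, |F x| ≤ 1) (y : ℕ) :
    |it T k F y - (T : ℝ) ^ k * ((∑ z ∈ range m, F z) / m)| ≤ 2 * (m : ℝ) ^ k := by
  set μ := (∑ z ∈ range m, F z) / m with hμ
  have hm0 : (0 : ℝ) < m := by exact_mod_cast Nat.pos_of_ne_zero hm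
  have hμb : |μ| ≤ 1 := by
    rw [hμ, abs_div, Nat.abs_cast, div_le_one hm0]
    calc |∑ z ∈ range m, F z| ≤ ∑ z ∈ range m, |F z| := abs_sum_le_sum_abs _ _
      _ ≤ ∑ _z ∈ range m, (1 : ℝ) := sum_le_sum fun z _ => hb z
      _ = m := by simp
  have h1 : Per (fun x => F x - μ) m := by
    intro t
    simp only [hF t]
  have h2 : ∑ z ∈ range m, (F z - μ) = 0 := by
    rw [sum_sub_distrib, sum_const, card_range, nsmul_eq_mul, hμ]
    field_simp
    ring
  have h3 : ∀ x, |F x - μ| ≤ 2 := by
    intro x
    calc |F x - μ| ≤ |F x| + |μ| := abs_sub _ _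
      _ ≤ 1 + 1 := add_le_add (hb x) hμb
      _ = 2 := by norm_num
  have h4 := (it_zero_mean T hm k _ h1 h2 2 h3).2.2 y
  have h5 : it T k F y = it T k (fun x => F x - μ) y + (T : ℝ) ^ k * μ := by
    rw [← it_const T k μ y, ← it_add]
    congr 1
    funext x
    ring
  rw [h5, add_sub_cancel_right]
  linarith

/-- Number of representations: lower bound in the middle of the range. -/
theorem it_ind (K g : ℕ) (x : ℕ) (k : ℕ) (hk : k + 1 ≤ K) : ∀ y : ℕ,
    y + k * (2 * K * g) + k * g ≤ x → x + k * g + 1 ≤ y + k * (2 * K * g) + 4 * K * g →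
    (2 * g : ℝ) ^ k ≤ it (4 * K * g) (k + 1) (fun x' => if x' = x then 1 else 0) y := by
  induction k with
  | zero =>
    intro y h1 h2
    simp only [zero_mul, add_zero] at h1 h2
    simp only [it, pow_zero]
    rw [← sum_singleton (fun _ : ℕ => (1 : ℝ)) (x - y)]
    apply le_trans _ (sum_le_sum_of_subset_of_nonneg (s := {x - y}) _ _)
    · rw [sum_singleton, sum_singleton, if_pos (by omega)]
    · intro z hz
      rw [mem_singleton] at hz
      rw [mem_range]
      omega
    · intro z _ _
      split_ifs <;> norm_num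
  | succ k ih =>
    intro y h1 h2
    have ih' := ih (by omega)
    rw [it]
    have hKg : g ≤ 2 * K * g := by nlinarith
    set W := (range (2 * g)).map ⟨fun i => 2 * K * g - g + i, fun a b h => by simpa using h⟩ with hW
    have hsub : W ⊆ range (4 * K * g) := by
      intro z hz
      rw [hW, mem_map] at hz
      obtain ⟨i, hi, rfl⟩ := hz
      rw [mem_range] at hi ⊢
      simp only [Function.Embedding.coeFn_mk]
      have : 4 * K * g = 2 * (2 * K * g) := by ring
      omega
    have hnn : ∀ z : ℕ, 0 ≤ it (4 * K * g) (k + 1) (fun x' => if x' = x then (1 : ℝ) else 0) (y + z) := by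
      intro z
      have := it_mono (4 * K * g) (k + 1) (fun _ => 0) (fun x' => if x' = x then (1 : ℝ) else 0)
        (by intro x'; split_ifs <;> norm_num) (y + z)
      rw [it_const, mul_zero] at this
      exact this
    calc (2 * g : ℝ) ^ (k + 1) = ∑ _z ∈ W, (2 * g : ℝ) ^ k := by
          rw [hW, sum_map]
          simp only [sum_const, card_range, nsmul_eq_mul]
          push_cast
          ring
      _ ≤ ∑ z ∈ W, it (4 * K * g) (k + 1) (fun x' => if x' = x then 1 else 0) (y + z) := by
          apply sum_le_sum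
          intro z hz
          rw [hW, mem_map] at hz
          obtain ⟨i, hi, rfl⟩ := hz
          rw [mem_range] at hi
          simp only [Function.Embedding.coeFn_mk]
          apply ih'
          · have e1 : (k + 1) * (2 * K * g) = k * (2 * K * g) + 2 * K * g := by ring
            have e2 : (k + 1) * g = k * g + g := by ring
            omega
          · have e1 : (k + 1) * (2 * K * g) = k * (2 * K * g) + 2 * K * g := by ring
            have e2 : (k + 1) * g = k * g + g := by ring
            omega
      _ ≤ _ := sum_le_sum_of_subset_of_nonneg hsub fun z _ _ => hnn z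

end Pool.Agent.Lib.MP_39b545_nt.Long
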