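import Pool.Agent.Lib.MP_39b545_nt.Long.Sieve

/-!
# Primes modulo which 2 has large order
-/

set_option autoImplicit false

namespace Pool.Agent.Lib.MP_39b545_nt.Long

open Finset Pool.Agent.Lib.MP_d5700b_nt

/-- Primes in `(w², 4w²]` modulo which `2` has order at least `w`. -/
noncomputable def Lam (w : ℕ) : Finset ℕ :=
  (Ioc (w ^ 2) (4 * w ^ 2)).filter (fun r => r.Prime ∧ w ≤ orderOf (2 : ZMod r))

theorem mem_Lam {w r : ℕ} : r ∈ Lam w ↔ (w ^ 2 < r ∧ r ≤ 4 * w ^ 2) ∧ r.Prime ∧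
    w ≤ orderOf (2 : ZMod r) := by
  rw [Lam, mem_filter, mem_Ioc]

/-- Few large primes divide `2^d - 1`. -/
theorem few_dvd (z d : ℕ) (hz : 2 ≤ z) (hd : 1 ≤ d) (s : Finset ℕ)
    (hs : ∀ r ∈ s, r.Prime ∧ z ≤ r ∧ r ∣ 2 ^ d - 1) :
    (s.card : ℝ) * Real.log z ≤ d * Real.log 2 := by
  have h1 : ∏ r ∈ s, r ∣ 2 ^ d - 1 :=
    Finset.prod_primes_dvd _ (fun r hr => (hs r hr).1.prime) (fun r hr => (hs r hr).2.2)
  have h2 : 0 < 2 ^ d - 1 := by
    have : 2 ^ 1 ≤ 2 ^ d := Nat.pow_le_pow_right (by norm_num) hd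
    omega
  have h3 : z ^ s.card ≤ 2 ^ d := by
    calc z ^ s.card = ∏ _r ∈ s, z := by rw [prod_const]
      _ ≤ ∏ r ∈ s, r := prod_le_prod (fun _ _ => Nat.zero_le _) (fun r hr => (hs r hr).2.1)
      _ ≤ 2 ^ d - 1 := Nat.le_of_dvd h2 h1
      _ ≤ 2 ^ d := Nat.sub_le _ _
  have h4 : (z : ℝ) ^ s.card ≤ 2 ^ d := by exact_mod_cast h3
  have hz0 : (0 : ℝ) < z := by exact_mod_cast (by omega : 0 < z)
  have h5 := Real.log_le_log (by positivity) h4
  rw [Real.log_pow, Real.log_pow] at h5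
  exact h5

/-- The primes of small order are few. -/
theorem bad_card (w : ℕ) (hw : 2 ≤ w) :
    ((((Ioc (w ^ 2) (4 * w ^ 2)).filter
      (fun r => r.Prime ∧ ¬ w ≤ orderOf (2 : ZMod r))).card : ℕ) : ℝ) * Real.log (w ^ 2) ≤
      (w : ℝ) ^ 2 / 2 * Real.log 2 := by
  classical
  set B := (Ioc (w ^ 2) (4 * w ^ 2)).filter (fun r => r.Prime ∧ ¬ w ≤ orderOf (2 : ZMod r)) with hB
  have hw4 : 4 ≤ w ^ 2 := by nlinarith
  have hcov : B ⊆ (Ico 1 w).biUnion (fun d => B.filter (fun r => r ∣ 2 ^ d - 1)) := by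
    intro r hr
    have hr' := hr
    rw [hB, mem_filter, mem_Ioc] at hr'
    obtain ⟨⟨h1, h2⟩, h3, h4⟩ := hr'
    have : Fact r.Prime := ⟨h3⟩
    have h5 : (2 : ZMod r) ≠ 0 := by
      intro h
      have : ((2 : ℕ) : ZMod r) = 0 := by exact_mod_cast h
      rw [ZMod.natCast_eq_zero_iff] at this
      have := Nat.le_of_dvd (by norm_num) this
      omega
    have h6 : 0 < orderOf (2 : ZMod r) := by
      have : IsOfFinOrder (Units.mk0 (2 : ZMod r) h5) := isOfFinOrder_of_finite _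
      have h7 := this.orderOf_pos
      rwa [← orderOf_units, Units.val_mk0] at h7
    rw [mem_biUnion]
    refine ⟨orderOf (2 : ZMod r), ?_, ?_⟩
    · rw [mem_Ico]
      omega
    · rw [mem_filter]
      refine ⟨hr, ?_⟩
      have h7 := pow_orderOf_eq_one (2 : ZMod r)
      rw [← ZMod.natCast_eq_zero_iff, Nat.cast_sub Nat.one_le_two_pow]
      push_cast
      rw [h7, sub_self]
  have h1 : (B.card : ℝ) ≤ ∑ d ∈ Ico 1 w, ((B.filter (fun r => r ∣ 2 ^ d - 1)).card : ℝ) := by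
    have := (card_le_card hcov).trans card_biUnion_le
    exact_mod_cast this
  have hlog : 0 ≤ Real.log ((w : ℝ) ^ 2) := by
    apply Real.log_nonneg
    have : (4 : ℝ) ≤ (w : ℝ) ^ 2 := by exact_mod_cast hw4
    linarith
  calc (B.card : ℝ) * Real.log ((w : ℝ) ^ 2)
      ≤ (∑ d ∈ Ico 1 w, ((B.filter (fun r => r ∣ 2 ^ d - 1)).card : ℝ)) * Real.log ((w : ℝ) ^ 2) :=
        mul_le_mul_of_nonneg_right h1 hlog
    _ = ∑ d ∈ Ico 1 w, ((B.filter (fun r => r ∣ 2 ^ d - 1)).card : ℝ) * Real.log ((w : ℝ) ^ 2) := by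
        rw [sum_mul]
    _ ≤ ∑ d ∈ Ico 1 w, (d : ℝ) * Real.log 2 := by
        apply sum_le_sum
        intro d hd
        rw [mem_Ico] at hd
        have := few_dvd (w ^ 2) d (by omega) hd.1 (B.filter (fun r => r ∣ 2 ^ d - 1)) (by
          intro r hr
          rw [mem_filter, hB, mem_filter, mem_Ioc] at hr
          exact ⟨hr.1.2.1, hr.1.1.1.le, hr.2⟩)
        push_cast at this
        exact this
    _ = (∑ d ∈ Ico 1 w, (d : ℝ)) * Real.log 2 := by rw [sum_mul]
    _ ≤ (w : ℝ) ^ 2 / 2 * Real.log 2 := by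
        apply mul_le_mul_of_nonneg_right _ (Real.log_nonneg (by norm_num))
        have h2 : ∑ d ∈ Ico 1 w, (d : ℝ) ≤ ∑ d ∈ range w, (d : ℝ) := by
          apply sum_le_sum_of_subset_of_nonneg
          · intro d hd
            rw [mem_Ico] at hd
            exact mem_range.2 hd.2
          · intro d _ _
            positivity
        refine h2.trans ?_
        have h3 := Finset.sum_range_id_mul_two w
        have h4 : (∑ d ∈ range w, (d : ℝ)) * 2 = (w : ℝ) * (w - 1 : ℕ) := by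
          rw [← Nat.cast_sum]
          exact_mod_cast h3
        have h5 : ((w - 1 : ℕ) : ℝ) ≤ w := by exact_mod_cast Nat.sub_le w 1
        have h6 : (0 : ℝ) ≤ w := Nat.cast_nonneg w
        nlinarith

/-- Chebyshev: many primes in `(w², 4w²]`. -/
theorem primes_card (w : ℕ) (hw : 1 ≤ w) :
    2 * Real.log 2 * (w : ℝ) ^ 2 - Real.log (4 * (w : ℝ) ^ 2 + 1) -
      4 * w * Real.log (4 * (w : ℝ) ^ 2) ≤
    ((((Ioc (w ^ 2) (4 * w ^ 2)).filter Nat.Prime).card : ℕ) : ℝ) *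
      Real.log (4 * (w : ℝ) ^ 2) := by
  have h1 := Chebyshev.theta_ge (4 * w ^ 2)
  have h2 : Chebyshev.theta ((w ^ 2 : ℕ) : ℝ) ≤ Real.log 4 * ((w ^ 2 : ℕ) : ℝ) :=
    Chebyshev.theta_le_log4_mul_x (Nat.cast_nonneg _)
  have h3 : Chebyshev.theta ((4 * w ^ 2 : ℕ) : ℝ) - Chebyshev.theta ((w ^ 2 : ℕ) : ℝ) ≤
      ((((Ioc (w ^ 2) (4 * w ^ 2)).filter Nat.Prime).card : ℕ) : ℝ) *
      Real.log (4 * (w : ℝ) ^ 2) := by
    rw [Chebyshev.theta_eq_sum_Icc, Chebyshev.theta_eq_sum_Icc, Nat.floor_natCast,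
      Nat.floor_natCast]
    have e1 : (Icc 0 (4 * w ^ 2)).filter Nat.Prime =
        (Icc 0 (w ^ 2)).filter Nat.Prime ∪ (Ioc (w ^ 2) (4 * w ^ 2)).filter Nat.Prime := by
      ext r
      simp only [mem_union, mem_filter, mem_Icc, mem_Ioc]
      constructor
      · rintro ⟨⟨a, b⟩, c⟩
        by_cases h : r ≤ w ^ 2
        · exact Or.inl ⟨⟨a, h⟩, c⟩
        · exact Or.inr ⟨⟨by omega, b⟩, c⟩
      · rintro (⟨⟨a, b⟩, c⟩ | ⟨⟨a, b⟩, c⟩)
        · exact ⟨⟨a, by omega⟩, c⟩
        · exact ⟨⟨by omega, b⟩, c⟩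
    rw [e1, sum_union]
    · rw [add_sub_cancel_left, ← nsmul_eq_mul, ← sum_const]
      apply sum_le_sum
      intro r hr
      rw [mem_filter, mem_Ioc] at hr
      apply Real.log_le_log
      · exact_mod_cast hr.2.pos
      · exact_mod_cast hr.1.2
    · rw [disjoint_left]
      intro r hr hr'
      rw [mem_filter, mem_Icc] at hr
      rw [mem_filter, mem_Ioc] at hr'
      omega
  have e2 : √((4 * w ^ 2 : ℕ) : ℝ) = 2 * w := by
    rw [show ((4 * w ^ 2 : ℕ) : ℝ) = (2 * (w : ℝ)) ^ 2 by push_cast; ring]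
    exact Real.sqrt_sq (by positivity)
  rw [e2] at h1
  have e3 : Real.log 4 = 2 * Real.log 2 := by
    rw [show (4 : ℝ) = 2 ^ 2 by norm_num, Real.log_pow]
    norm_num
  rw [e3] at h2
  push_cast at h1 h2 h3
  nlinarith

/-- Many primes of large order. -/
theorem Lam_card_ge : ∃ w₀ : ℕ, ∀ w ≥ w₀,
    (w : ℝ) ^ 2 / (2 * Real.log (4 * (w : ℝ) ^ 2)) ≤ ((Lam w).card : ℝ) := by
  -- analytic facts for large `w`
  have hev : ∀ᶠ x : ℝ in Filter.atTop, Real.log (4 * x ^ 2 + 1) + 4 * x * Real.log (4 * x ^ 2) ≤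
      (1 / 10) * x ^ 2 := by
    have h1 : ∀ᶠ x : ℝ in Filter.atTop, Real.log x ≤ (1 / 1000) * x ^ (1 / 2 : ℝ) := by
      have := isLittleO_log_rpow_atTop (r := 1 / 2) (by norm_num)
      have h := this.def (c := 1 / 1000) (by norm_num)
      filter_upwards [h, Filter.eventually_ge_atTop 1] with x hx hx1
      rw [Real.norm_of_nonneg (Real.log_nonneg hx1), Real.norm_of_nonneg (by positivity)] at hx
      exact hx
    filter_upwards [h1, Filter.eventually_ge_atTop (10 ^ 6 : ℝ)] with x hx hx1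
    have hx0 : 0 < x := by linarith
    have hs : x ^ (1 / 2 : ℝ) ≤ x := by
      calc x ^ (1 / 2 : ℝ) ≤ x ^ (1 : ℝ) := Real.rpow_le_rpow_of_exponent_le (by linarith)
            (by norm_num)
        _ = x := Real.rpow_one x
    have hlx : Real.log x ≤ x / 1000 := by linarith
    have h2 : Real.log (4 * x ^ 2) = 2 * Real.log 2 + 2 * Real.log x := by
      rw [Real.log_mul (by norm_num) (by positivity), Real.log_pow,
        show (4 : ℝ) = 2 ^ 2 by norm_num, Real.log_pow]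
      norm_num
    have h3 : Real.log (4 * x ^ 2 + 1) ≤ Real.log (4 * x ^ 2) + 1 := by
      have : 4 * x ^ 2 + 1 ≤ 4 * x ^ 2 * Real.exp 1 := by
        have := Real.add_one_le_exp (1 : ℝ)
        nlinarith
      calc Real.log (4 * x ^ 2 + 1) ≤ Real.log (4 * x ^ 2 * Real.exp 1) :=
            Real.log_le_log (by positivity) this
        _ = _ := by rw [Real.log_mul (by positivity) (by positivity), Real.log_exp]
    have hl2 : Real.log 2 ≤ 1 := by
      have := Real.log_two_lt_d9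
      linarith
    rw [h2] at h3 ⊢
    nlinarith
  obtain ⟨x₀, hx₀⟩ := Filter.eventually_atTop.1 hev
  refine ⟨max 1000 (⌈x₀⌉₊), fun w hw => ?_⟩
  have hw1 : 1000 ≤ w := (le_max_left _ _).trans hw
  have hwr : (1000 : ℝ) ≤ w := by exact_mod_cast hw1
  have hwx : x₀ ≤ w := (Nat.le_ceil x₀).trans (by exact_mod_cast (le_max_right _ _).trans hw)
  have h1 := hx₀ w hwx
  have h2 := primes_card w (by omega)
  have h3 := bad_card w (by omega)
  set B := (Ioc (w ^ 2) (4 * w ^ 2)).filter (fun r => r.Prime ∧ ¬ w ≤ orderOf (2 : ZMod r)) with hB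
  have hsplit : ((Ioc (w ^ 2) (4 * w ^ 2)).filter Nat.Prime).card ≤ (Lam w).card + B.card := by
    rw [← card_union_of_disjoint]
    · apply card_le_card
      intro r hr
      rw [mem_filter] at hr
      rw [mem_union, Lam, hB, mem_filter, mem_filter]
      by_cases h : w ≤ orderOf (2 : ZMod r)
      · exact Or.inl ⟨hr.1, hr.2, h⟩
      · exact Or.inr ⟨hr.1, hr.2, h⟩
    · rw [disjoint_left]
      intro r hr hr'
      rw [mem_Lam] at hr
      rw [hB, mem_filter] at hr'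
      exact hr'.2.2 hr.2.2
  have hsplit' : ((((Ioc (w ^ 2) (4 * w ^ 2)).filter Nat.Prime).card : ℕ) : ℝ) ≤
      (Lam w).card + B.card := by exact_mod_cast hsplit
  have hlog0 : 0 < Real.log (4 * (w : ℝ) ^ 2) := by
    apply Real.log_pos
    nlinarith
  have hlw : 1 ≤ Real.log w := by
    rw [Real.le_log_iff_exp_le (by linarith)]
    have := Real.exp_one_lt_d9
    linarith
  have hlogeq : Real.log (4 * (w : ℝ) ^ 2) = 2 * Real.log 2 + 2 * Real.log w := by
    rw [Real.log_mul (by norm_num) (by positivity), Real.log_pow,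
      show (4 : ℝ) = 2 ^ 2 by norm_num, Real.log_pow]
    norm_num
  have hlogeq2 : Real.log ((w : ℝ) ^ 2) = 2 * Real.log w := by
    rw [Real.log_pow]
    norm_num
  rw [hlogeq2] at h3
  have hlog2 := Real.log_two_gt_d9
  have hlog2' := Real.log_two_lt_d9
  -- `log w` is at least `4 log 2`
  have hlw4 : 6.9 * Real.log 2 ≤ Real.log w := by
    have h4 : (2 : ℝ) ^ (6.9 : ℝ) ≤ w := by
      calc (2 : ℝ) ^ (6.9 : ℝ) ≤ (2 : ℝ) ^ (7 : ℝ) :=
            Real.rpow_le_rpow_of_exponent_le (by norm_num) (by norm_num)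
        _ = 128 := by norm_num
        _ ≤ w := by linarith
    have := Real.log_le_log (by positivity) h4
    rwa [Real.log_rpow (by norm_num)] at this
  have h5 : (B.card : ℝ) * Real.log (4 * (w : ℝ) ^ 2) ≤ (w : ℝ) ^ 2 / 2 * Real.log 2 * (6 / 5) := by
    have h6 : Real.log (4 * (w : ℝ) ^ 2) ≤ (6 / 5) * (2 * Real.log w) + 0 := by
      rw [hlogeq]
      nlinarith
    calc (B.card : ℝ) * Real.log (4 * (w : ℝ) ^ 2) ≤ B.card * ((6 / 5) * (2 * Real.log w)) := by
          apply mul_le_mul_of_nonneg_left _ (Nat.cast_nonneg _)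
          linarith
      _ = (6 / 5) * (B.card * (2 * Real.log w)) := by ring
      _ ≤ (6 / 5) * ((w : ℝ) ^ 2 / 2 * Real.log 2) := by
          apply mul_le_mul_of_nonneg_left h3 (by norm_num)
      _ = _ := by ring
  have h6 : (w : ℝ) ^ 2 / 2 ≤ (Lam w).card * Real.log (4 * (w : ℝ) ^ 2) := by
    have h7 := mul_le_mul_of_nonneg_right hsplit' hlog0.le
    rw [add_mul] at h7
    have hw2 : 0 ≤ (w : ℝ) ^ 2 := by positivity
    nlinarith
  rw [div_le_iff₀ (by positivity)]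
  linarith

/-- Indicator of the allowed classes. -/
noncomputable def Ind (w r x : ℕ) : ℝ := by
  classical
  exact if ∃ i < w, r ∣ 2 ^ i * x + 1 then 0 else 1

theorem Ind_zero_or_one (w r x : ℕ) : Ind w r x = 0 ∨ Ind w r x = 1 := by
  classical
  unfold Ind
  split_ifs
  · exact Or.inl rfl
  · exact Or.inr rfl

theorem Ind_per (w r : ℕ) : Per (Ind w r) r := by
  intro t
  unfold Ind
  have : (∃ i < w, r ∣ 2 ^ i * (t % r) + 1) ↔ (∃ i < w, r ∣ 2 ^ i * t + 1) := by
    constructor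
    · rintro ⟨i, hi, h⟩
      refine ⟨i, hi, ?_⟩
      rw [← ZMod.natCast_eq_zero_iff] at h ⊢
      push_cast at h ⊢
      rwa [ZMod.natCast_mod] at h
    · rintro ⟨i, hi, h⟩
      refine ⟨i, hi, ?_⟩
      rw [← ZMod.natCast_eq_zero_iff] at h ⊢
      push_cast at h ⊢
      rwa [ZMod.natCast_mod]
  simp only [this]

theorem Ind_sum (w r : ℕ) (hr : r.Prime) (hr2 : 2 < r) (hord : w ≤ orderOf (2 : ZMod r)) :
    ∑ x ∈ range r, Ind w r x = r - w := by
  classical
  have : Fact r.Prime := ⟨hr⟩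
  have h5 : (2 : ZMod r) ≠ 0 := by
    intro h
    have : ((2 : ℕ) : ZMod r) = 0 := by exact_mod_cast h
    rw [ZMod.natCast_eq_zero_iff] at this
    have := Nat.le_of_dvd (by norm_num) this
    omega
  have h1 : ∀ x, Ind w r x = 1 - (if ∃ i < w, r ∣ 2 ^ i * x + 1 then (1 : ℝ) else 0) := by
    intro x
    unfold Ind
    split_ifs <;> norm_num
  rw [sum_congr rfl fun x _ => h1 x, sum_sub_distrib, sum_const, card_range, nsmul_eq_mul, mul_one,
    sum_boole]
  congr 1
  have h2 : (range r).filter (fun x => ∃ i < w, r ∣ 2 ^ i * x + 1) =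
      (range w).image (fun i => (-(2 ^ i)⁻¹ : ZMod r).val) := by
    ext x
    rw [mem_filter, mem_image, mem_range]
    constructor
    · rintro ⟨hx, i, hi, h⟩
      refine ⟨i, mem_range.2 hi, ?_⟩
      rw [← ZMod.natCast_eq_zero_iff] at h
      push_cast at h
      have h3 : (x : ZMod r) = -(2 ^ i)⁻¹ := by
        have h4 : (2 : ZMod r) ^ i ≠ 0 := pow_ne_zero _ h5
        field_simp
        linear_combination h
      rw [← h3, ZMod.val_natCast_of_lt hx]
    · rintro ⟨i, hi, rfl⟩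
      refine ⟨ZMod.val_lt _, i, mem_range.1 hi, ?_⟩
      rw [← ZMod.natCast_eq_zero_iff]
      push_cast
      rw [ZMod.natCast_zmod_val]
      have h4 : (2 : ZMod r) ^ i ≠ 0 := pow_ne_zero _ h5
      field_simp
      ring
  rw [h2, card_image_of_injOn, card_range]
  intro i hi j hj hij
  simp only [coe_range, Set.mem_Iio] at hi hj
  have h3 := ZMod.val_injective r hij
  have h4 : (2 : ZMod r) ^ i = 2 ^ j := by
    have := neg_injective h3
    exact inv_injective this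
  exact pow_injOn_Iio_orderOf (Set.mem_Iio.2 (lt_of_lt_of_le hi hord))
    (Set.mem_Iio.2 (lt_of_lt_of_le hj hord)) h4

end Pool.Agent.Lib.MP_39b545_nt.Long
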