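import Pool.Agent.Lib.MP_39b545_nt.Long.Iter

/-!
# A large sieve with smooth weights
-/

set_option autoImplicit false

namespace Pool.Agent.Lib.MP_39b545_nt.Long

open Finset Pool.Agent.Lib.MP_d5700b_nt

/-- Smooth correlation of two products of mean zero periodic functions. -/
theorem corr (Λ : Finset ℕ) (hΛ : ∀ l ∈ Λ, l.Prime) (R : ℕ) (hR1 : 1 ≤ R) (hR : ∀ l ∈ Λ, l ≤ R)
    (G : ℕ → ℕ → ℝ) (hper : ∀ l ∈ Λ, Per (G l) l) (hb : ∀ l ∈ Λ, ∀ x, |G l x| ≤ 1)
    (hmean : ∀ l ∈ Λ, ∑ x ∈ range l, G l x = 0) (v : ℝ)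
    (hvar : ∀ l ∈ Λ, ∑ x ∈ range l, G l x ^ 2 ≤ v * l) (u : ℕ) (D D' : Finset ℕ)
    (hD : D ∈ Λ.powersetCard u) (hD' : D' ∈ Λ.powersetCard u) (T k y : ℕ) :
    it T k (fun x => (∏ l ∈ D, G l x) * (∏ l ∈ D', G l x)) y ≤
      (if D = D' then (T : ℝ) ^ k * v ^ u else 0) + 2 * ((R : ℝ) ^ (2 * u)) ^ k := by
  classical
  rw [mem_powersetCard] at hD hD'
  set U := D ∪ D' with hU
  have hUΛ : ∀ l ∈ U, l ∈ Λ := by
    intro l hl
    rcases mem_union.1 hl with h | h
    · exact hD.1 h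
    · exact hD'.1 h
  set h : ℕ → ℕ → ℝ := fun l x => (if l ∈ D then G l x else 1) * (if l ∈ D' then G l x else 1)
    with hh
  have hprod : ∀ x, (∏ l ∈ D, G l x) * (∏ l ∈ D', G l x) = ∏ l ∈ U, h l x := by
    intro x
    rw [hh, prod_mul_distrib]
    congr 1
    · rw [prod_ite_mem, hU, union_inter_cancel_left]
    · rw [prod_ite_mem, hU, union_inter_cancel_right]
  have hper' : ∀ l ∈ U, Per (h l) (id l) := by
    intro l hl t
    simp only [hh, id]
    have := hper l (hUΛ l hl) t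
    rw [this]
  have hne : ∀ l ∈ U, id l ≠ 0 := fun l hl => (hΛ l (hUΛ l hl)).ne_zero
  have hcop : ∀ l ∈ U, ∀ l' ∈ U, l ≠ l' → Nat.Coprime (id l) (id l') :=
    fun l hl l' hl' hne => (Nat.coprime_primes (hΛ l (hUΛ l hl)) (hΛ l' (hUΛ l' hl'))).2 hne
  have hb' : ∀ l ∈ U, ∀ t, |h l t| ≤ 1 := by
    intro l hl t
    have h1 := hb l (hUΛ l hl) t
    simp only [hh]
    rw [abs_mul]
    apply mul_le_one₀ _ (abs_nonneg _)
    · split_ifs
      · exact h1
      · simp
    · split_ifs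
      · exact h1
      · simp
  have hm : (∏ l ∈ U, l) ≠ 0 := prod_ne_zero_iff.2 hne
  have hFper : Per (fun x => ∏ l ∈ U, h l x) (∏ l ∈ U, l) := per_prod U id h hper'
  have hFb : ∀ x, |∏ l ∈ U, h l x| ≤ 1 := by
    intro x
    rw [abs_prod]
    exact prod_le_one (fun _ _ => abs_nonneg _) (fun l hl => hb' l hl x)
  have happ := it_approx T hm k (fun x => ∏ l ∈ U, h l x) hFper hFb y
  have hfun : (fun x => (∏ l ∈ D, G l x) * (∏ l ∈ D', G l x)) = fun x => ∏ l ∈ U, h l x :=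
    funext hprod
  rw [hfun]
  have h1 := (abs_le.1 happ).2
  have hmean' : (∑ z ∈ range (∏ l ∈ U, l), ∏ l ∈ U, h l z) / ((∏ l ∈ U, l : ℕ) : ℝ) =
      ∏ l ∈ U, ((∑ x ∈ range l, h l x) / l) := by
    have := sum_prod_complete U id h hper' hne hcop
    simp only [id] at this
    rw [this, prod_div_distrib]
    push_cast
    rfl
  rw [hmean'] at h1
  -- the error
  have hR1r : (1 : ℝ) ≤ R := by exact_mod_cast hR1
  have herr : ((∏ l ∈ U, l : ℕ) : ℝ) ≤ (R : ℝ) ^ (2 * u) := by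
    push_cast
    calc ∏ l ∈ U, (l : ℝ) ≤ ∏ l ∈ U, (R : ℝ) := by
          apply prod_le_prod
          · intro l _; exact Nat.cast_nonneg l
          · intro l hl
            exact_mod_cast hR l (hUΛ l hl)
      _ = (R : ℝ) ^ U.card := by rw [prod_const]
      _ ≤ (R : ℝ) ^ (2 * u) := by
          apply pow_le_pow_right₀ hR1r
          calc U.card ≤ D.card + D'.card := card_union_le _ _
            _ = 2 * u := by rw [hD.2, hD'.2]; ring
  have hmain : ∏ l ∈ U, ((∑ x ∈ range l, h l x) / l) ≤ if D = D' then v ^ u else 0 := by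
    split_ifs with heq
    · have hUD : U = D := by rw [hU, ← heq, union_self]
      rw [hUD]
      calc ∏ l ∈ D, ((∑ x ∈ range l, h l x) / l) ≤ ∏ l ∈ D, v := by
            apply prod_le_prod
            · intro l hl
              apply div_nonneg _ (Nat.cast_nonneg l)
              apply sum_nonneg
              intro x _
              simp only [hh, ← heq, if_pos hl]
              exact mul_self_nonneg _
            · intro l hl
              have hl0 : (0 : ℝ) < l := by exact_mod_cast (hΛ l (hD.1 hl)).pos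
              rw [div_le_iff₀ hl0]
              refine le_trans (le_of_eq ?_) (hvar l (hD.1 hl))
              apply sum_congr rfl
              intro x _
              simp only [hh, ← heq, if_pos hl]
              ring
        _ = v ^ u := by rw [prod_const, hD.2]
    · apply le_of_eq
      obtain ⟨p, hp⟩ : ∃ p, ¬ (p ∈ D ↔ p ∈ D') := by
        by_contra hcon
        push Not at hcon
        exact heq (Finset.ext hcon)
      have hpU : p ∈ U := by
        rw [hU, mem_union]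
        by_contra hcon
        push Not at hcon
        exact hp ⟨fun h => absurd h hcon.1, fun h => absurd h hcon.2⟩
      apply prod_eq_zero hpU
      have h2 : ∑ x ∈ range p, h p x = ∑ x ∈ range p, G p x := by
        apply sum_congr rfl
        intro x _
        simp only [hh]
        by_cases h3 : p ∈ D <;> by_cases h4 : p ∈ D'
        · exact absurd ⟨fun _ => h4, fun _ => h3⟩ hp
        · rw [if_pos h3, if_neg h4, mul_one]
        · rw [if_neg h3, if_pos h4, one_mul]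
        · exact absurd ⟨fun h => absurd h h3, fun h => absurd h h4⟩ hp
      rw [h2, hmean p (hUΛ p hpU), zero_div]
  have hT0 : (0 : ℝ) ≤ (T : ℝ) ^ k := by positivity
  have h3 : (T : ℝ) ^ k * ∏ l ∈ U, ((∑ x ∈ range l, h l x) / l) ≤
      (if D = D' then (T : ℝ) ^ k * v ^ u else 0) := by
    refine (mul_le_mul_of_nonneg_left hmain hT0).trans (le_of_eq ?_)
    split_ifs <;> ring
  have h4 : ((∏ l ∈ U, l : ℕ) : ℝ) ^ k ≤ ((R : ℝ) ^ (2 * u)) ^ k :=
    pow_le_pow_left₀ (Nat.cast_nonneg _) herr k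
  linarith

/-- **Large sieve with smooth weights.** `w` classes are removed modulo each `l ∈ Λ`. -/
theorem large_sieve (Λ : Finset ℕ) (hΛ : ∀ l ∈ Λ, l.Prime) (R : ℕ) (hR1 : 1 ≤ R)
    (hR : ∀ l ∈ Λ, l ≤ R) (w : ℕ) (R₀ : ℕ) (hR₀ : 1 ≤ R₀) (hR₀' : ∀ l ∈ Λ, R₀ ≤ l)
    (hw : w ≤ R₀)
    (I : ℕ → ℕ → ℝ) (hper : ∀ l ∈ Λ, Per (I l) l) (hI : ∀ l x, I l x = 0 ∨ I l x = 1)
    (hdens : ∀ l ∈ Λ, ∑ x ∈ range l, I l x = l - w) (u : ℕ)
    (K g X : ℕ) (hK : 1 ≤ K) (hg : 1 ≤ g) (hX : X ≤ 2 * K * g)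
    (S : Finset ℕ) (hS : ∀ x ∈ S, x < X ∧ ∀ l ∈ Λ, I l x = 1) :
    (S.card : ℝ) * (2 * g : ℝ) ^ (K - 1) * ((w / R : ℝ) ^ u * (Λ.card.choose u : ℝ)) ^ 2 ≤
      (Λ.card.choose u : ℝ) * ((4 * K * g : ℕ) : ℝ) ^ K * (w / R₀ : ℝ) ^ u +
      (Λ.card.choose u : ℝ) ^ 2 * (2 * ((R : ℝ) ^ (2 * u)) ^ K) := by
  classical
  have hlpos : ∀ l ∈ Λ, (0 : ℝ) < l := fun l hl => by exact_mod_cast (hΛ l hl).pos
  have hR₀r : (0 : ℝ) < R₀ := by exact_mod_cast hR₀
  have hRr : (0 : ℝ) < R := by exact_mod_cast hR1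
  have hw0 : (0 : ℝ) ≤ w := Nat.cast_nonneg w
  set δ : ℕ → ℝ := fun l => w / l with hδ
  have hδ0 : ∀ l, 0 ≤ δ l := fun l => div_nonneg hw0 (Nat.cast_nonneg l)
  have hδ1 : ∀ l ∈ Λ, δ l ≤ w / R₀ := by
    intro l hl
    apply div_le_div_of_nonneg_left hw0 hR₀r
    exact_mod_cast hR₀' l hl
  have hδ2 : ∀ l ∈ Λ, (w : ℝ) / R ≤ δ l := by
    intro l hl
    apply div_le_div_of_nonneg_left hw0 (hlpos l hl)
    exact_mod_cast hR l hl
  have hδ3 : ∀ l ∈ Λ, δ l ≤ 1 := by
    intro l hl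
    refine (hδ1 l hl).trans ?_
    rw [div_le_one hR₀r]
    exact_mod_cast hw
  set G : ℕ → ℕ → ℝ := fun l x => I l x - (1 - δ l) with hG
  have hGb : ∀ l ∈ Λ, ∀ x, |G l x| ≤ 1 := by
    intro l hl x
    have h1 := hδ0 l
    have h2 := hδ3 l hl
    simp only [hG]
    rw [abs_le]
    rcases hI l x with h | h <;> rw [h] <;> constructor <;> linarith
  have hlδ : ∀ l ∈ Λ, δ l * l = w := by
    intro l hl
    simp only [hδ]
    rw [div_mul_cancel₀ _ (hlpos l hl).ne']
  have hmean : ∀ l ∈ Λ, ∑ x ∈ range l, G l x = 0 := by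
    intro l hl
    simp only [hG]
    rw [sum_sub_distrib, hdens l hl, sum_const, card_range, nsmul_eq_mul]
    have := hlδ l hl
    linarith
  have hvar : ∀ l ∈ Λ, ∑ x ∈ range l, G l x ^ 2 ≤ (w / R₀ : ℝ) * l := by
    intro l hl
    have h1 : ∀ x, G l x ^ 2 = (1 - 2 * (1 - δ l)) * I l x + (1 - δ l) ^ 2 := by
      intro x
      simp only [hG]
      rcases hI l x with h | h <;> rw [h] <;> ring
    rw [sum_congr rfl (fun x _ => h1 x), sum_add_distrib, ← mul_sum, hdens l hl, sum_const,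
      card_range, nsmul_eq_mul]
    have h2 : (1 - 2 * (1 - δ l)) * (l - w) + l * (1 - δ l) ^ 2 = (δ l * (1 - δ l)) * l := by
      rw [← hlδ l hl]
      ring
    rw [h2]
    apply mul_le_mul_of_nonneg_right _ (hlpos l hl).le
    have := hδ1 l hl
    nlinarith [hδ0 l, hδ3 l hl]
  have hperG : ∀ l ∈ Λ, Per (G l) l := by
    intro l hl t
    simp only [hG]
    rw [hper l hl t]
  set P := Λ.powersetCard u with hP
  have hPcard : P.card = Λ.card.choose u := card_powersetCard u Λ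
  set W : ℕ → ℝ := fun x => ∑ D ∈ P, ∏ l ∈ D, G l x with hW
  -- the base point
  set M := ∏ l ∈ Λ, l with hM
  have hM0 : 1 ≤ M := Nat.one_le_iff_ne_zero.2 (prod_ne_zero_iff.2 fun l hl => (hΛ l hl).ne_zero)
  set b := (K - 1) * (2 * K * g) + (K - 1) * g with hb
  set y := M * b - b with hy
  have hyb : y + b = M * b := Nat.sub_add_cancel (Nat.le_mul_of_pos_left b hM0)
  set T := 4 * K * g with hT
  -- upper bound
  have hup : it T K (fun x => W x ^ 2) y ≤ (Λ.card.choose u : ℝ) * ((T : ℝ) ^ K * (w / R₀) ^ u) +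
      (Λ.card.choose u : ℝ) ^ 2 * (2 * ((R : ℝ) ^ (2 * u)) ^ K) := by
    have e1 : (fun x => W x ^ 2) =
        fun x => ∑ D ∈ P, ∑ D' ∈ P, (∏ l ∈ D, G l x) * (∏ l ∈ D', G l x) := by
      funext x
      simp only [hW, sq, sum_mul_sum]
    rw [e1, it_sum]
    calc ∑ D ∈ P, it T K (fun x => ∑ D' ∈ P, (∏ l ∈ D, G l x) * (∏ l ∈ D', G l x)) y
        = ∑ D ∈ P, ∑ D' ∈ P, it T K (fun x => (∏ l ∈ D, G l x) * (∏ l ∈ D', G l x)) y := by
          apply sum_congr rfl
          intro D _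
          rw [it_sum]
      _ ≤ ∑ D ∈ P, ∑ D' ∈ P, ((if D = D' then (T : ℝ) ^ K * (w / R₀) ^ u else 0) +
            2 * ((R : ℝ) ^ (2 * u)) ^ K) := by
          apply sum_le_sum
          intro D hD
          apply sum_le_sum
          intro D' hD'
          exact corr Λ hΛ R hR1 hR G hperG hGb hmean _ hvar u D D' hD hD' T K y
      _ = _ := by
          simp only [sum_add_distrib, sum_const, nsmul_eq_mul, hPcard]
          rw [sum_congr rfl (g := fun _ => (T : ℝ) ^ K * (w / R₀) ^ u)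
            (fun D hD => by rw [sum_ite_eq, if_pos hD]), sum_const, nsmul_eq_mul, hPcard]
          ring
  -- lower bound
  set A := (w / R : ℝ) ^ u * (Λ.card.choose u : ℝ) with hA
  have hA0 : 0 ≤ A := by positivity
  have hWper : ∀ x c, W (x + M * c) = W x := by
    intro x c
    simp only [hW]
    apply sum_congr rfl
    intro D hD
    rw [mem_powersetCard] at hD
    apply prod_congr rfl
    intro l hl
    obtain ⟨q, hq⟩ : l ∣ M := dvd_prod_of_mem _ (hD.1 hl)
    have := (hperG l (hD.1 hl)).mul_add (q * c) x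
    rw [hq, ← this]
    congr 1
    ring
  have hlow : ∀ x ∈ S, A ≤ W x := by
    intro x hx
    rw [hA, mul_comm, ← hPcard, ← nsmul_eq_mul, ← sum_const]
    simp only [hW]
    apply sum_le_sum
    intro D hD
    rw [mem_powersetCard] at hD
    rw [← hD.2, ← prod_const]
    apply prod_le_prod
    · intro l _; positivity
    · intro l hl
      have h1 := hδ2 l (hD.1 hl)
      simp only [hG]
      rw [(hS x hx).2 l (hD.1 hl)]
      linarith
  have hlow2 : ∀ z, ∑ x ∈ S, A ^ 2 * (if z = x + M * b then (1 : ℝ) else 0) ≤ W z ^ 2 := by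
    intro z
    by_cases hz : ∃ x ∈ S, z = x + M * b
    · obtain ⟨x, hx, rfl⟩ := hz
      rw [sum_eq_single_of_mem x hx]
      · rw [if_pos rfl, mul_one, hWper]
        exact pow_le_pow_left₀ hA0 (hlow x hx) 2
      · intro x' _ hne
        rw [if_neg (by omega), mul_zero]
    · rw [sum_eq_zero]
      · positivity
      · intro x hx
        rw [if_neg, mul_zero]
        intro h
        exact hz ⟨x, hx, h⟩
  have h1 := it_mono T K _ _ hlow2 y
  rw [it_sum] at h1
  have h2 : ∀ x ∈ S, A ^ 2 * (2 * g : ℝ) ^ (K - 1) ≤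
      it T K (fun z => A ^ 2 * (if z = x + M * b then (1 : ℝ) else 0)) y := by
    intro x hx
    rw [it_mul]
    apply mul_le_mul_of_nonneg_left _ (by positivity)
    have h3 := it_ind K g (x + M * b) (K - 1) (by omega) y (by rw [← hyb]; omega) (by
      have h4 := (hS x hx).1
      have h5 : 4 * K * g = 2 * K * g + 2 * K * g := by ring
      have h6 : (K - 1) * g + g = K * g := by
        rw [← Nat.succ_mul]
        congr 1
        omega
      have h7 : 2 * K * g = 2 * (K * g) := by ring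
      rw [← hyb, hb]
      omega)
    rw [Nat.sub_add_cancel hK] at h3
    exact h3
  have h3 := (sum_le_sum h2).trans h1
  rw [sum_const, nsmul_eq_mul] at h3
  calc (S.card : ℝ) * (2 * g : ℝ) ^ (K - 1) * A ^ 2
      = S.card * (A ^ 2 * (2 * g : ℝ) ^ (K - 1)) := by ring
    _ ≤ _ := h3.trans hup
    _ = _ := by ring

end Pool.Agent.Lib.MP_39b545_nt.Long
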