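import Pool.Agent.Lib.MP_39b545_nt.Long.USieve
import Pool.Agent.Lib.MP_973905_nt.PrimeSum

/-!
# Chains of moderate length: the uniform sieve bound
-/

set_option autoImplicit false

namespace Pool.Agent.Lib.MP_39b545_nt.Long

open Finset Pool.Agent.Lib.MP_d5700b_nt
open Pool.Agent.Lib.MP_973905_nt (PS)

/-- Primes in `(w², M]` modulo which `2` has order at least `w`. -/
noncomputable def LamM (w M : ℕ) : Finset ℕ :=
  (Ioc (w ^ 2) M).filter (fun r => r.Prime ∧ w ≤ orderOf (2 : ZMod r))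

theorem mem_LamM {w M r : ℕ} : r ∈ LamM w M ↔ (w ^ 2 < r ∧ r ≤ M) ∧ r.Prime ∧
    w ≤ orderOf (2 : ZMod r) := by
  rw [LamM, mem_filter, mem_Ioc]

/-- The primes of small order are few. -/
theorem bad_cardM (w M : ℕ) (hw : 2 ≤ w) :
    ((((Ioc (w ^ 2) M).filter
      (fun r => r.Prime ∧ ¬ w ≤ orderOf (2 : ZMod r))).card : ℕ) : ℝ) * Real.log (w ^ 2) ≤
      (w : ℝ) ^ 2 / 2 * Real.log 2 := by
  classical
  set B := (Ioc (w ^ 2) M).filter (fun r => r.Prime ∧ ¬ w ≤ orderOf (2 : ZMod r)) with hB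
  have hw4 : 4 ≤ w ^ 2 := by nlinarith
  have hcov : B ⊆ (Ico 1 w).biUnion (fun d => B.filter (fun r => r ∣ 2 ^ d - 1)) := by
    intro r hr
    have hr' := hr
    rw [hB, mem_filter, mem_Ioc] at hr'
    obtain ⟨⟨h1, h2⟩, h3, h4⟩ := hr'
    have : Fact r.Prime := ⟨h3⟩
    have h5 : (2 : ZMod r) ≠ 0 := by
      intro h
      have : ((2 : ℕ) : ZMod r) = 0 := by exact_mod_cast h
      rw [ZMod.natCast_eq_zero_iff] at this
      have := Nat.le_of_dvd (by norm_num) this
      omega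
    have h6 : 0 < orderOf (2 : ZMod r) := by
      have : IsOfFinOrder (Units.mk0 (2 : ZMod r) h5) := isOfFinOrder_of_finite _
      have h7 := this.orderOf_pos
      rwa [← orderOf_units, Units.val_mk0] at h7
    rw [mem_biUnion]
    refine ⟨orderOf (2 : ZMod r), ?_, ?_⟩
    · rw [mem_Ico]
      omega
    · rw [mem_filter]
      refine ⟨hr, ?_⟩
      have h7 := pow_orderOf_eq_one (2 : ZMod r)
      rw [← ZMod.natCast_eq_zero_iff, Nat.cast_sub Nat.one_le_two_pow]
      push_cast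
      rw [h7, sub_self]
  have h1 : (B.card : ℝ) ≤ ∑ d ∈ Ico 1 w, ((B.filter (fun r => r ∣ 2 ^ d - 1)).card : ℝ) := by
    have := (card_le_card hcov).trans card_biUnion_le
    exact_mod_cast this
  have hlog : 0 ≤ Real.log ((w : ℝ) ^ 2) := by
    apply Real.log_nonneg
    have : (4 : ℝ) ≤ (w : ℝ) ^ 2 := by exact_mod_cast hw4
    linarith
  calc (B.card : ℝ) * Real.log ((w : ℝ) ^ 2)
      ≤ (∑ d ∈ Ico 1 w, ((B.filter (fun r => r ∣ 2 ^ d - 1)).card : ℝ)) * Real.log ((w : ℝ) ^ 2) :=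
        mul_le_mul_of_nonneg_right h1 hlog
    _ = ∑ d ∈ Ico 1 w, ((B.filter (fun r => r ∣ 2 ^ d - 1)).card : ℝ) * Real.log ((w : ℝ) ^ 2) := by
        rw [sum_mul]
    _ ≤ ∑ d ∈ Ico 1 w, (d : ℝ) * Real.log 2 := by
        apply sum_le_sum
        intro d hd
        rw [mem_Ico] at hd
        have := few_dvd (w ^ 2) d (by omega) hd.1 (B.filter (fun r => r ∣ 2 ^ d - 1)) (by
          intro r hr
          rw [mem_filter, hB, mem_filter, mem_Ioc] at hr
          exact ⟨hr.1.2.1, hr.1.1.1.le, hr.2⟩)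
        push_cast at this
        exact this
    _ = (∑ d ∈ Ico 1 w, (d : ℝ)) * Real.log 2 := by rw [sum_mul]
    _ ≤ (w : ℝ) ^ 2 / 2 * Real.log 2 := by
        apply mul_le_mul_of_nonneg_right _ (Real.log_nonneg (by norm_num))
        have h2 : ∑ d ∈ Ico 1 w, (d : ℝ) ≤ ∑ d ∈ range w, (d : ℝ) := by
          apply sum_le_sum_of_subset_of_nonneg
          · intro d hd
            rw [mem_Ico] at hd
            exact mem_range.2 hd.2
          · intro d _ _
            positivity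
        refine h2.trans ?_
        have h3 := Finset.sum_range_id_mul_two w
        have h4 : (∑ d ∈ range w, (d : ℝ)) * 2 = (w : ℝ) * (w - 1 : ℕ) := by
          rw [← Nat.cast_sum]
          exact_mod_cast h3
        have h5 : ((w - 1 : ℕ) : ℝ) ≤ w := by exact_mod_cast Nat.sub_le w 1
        have h6 : (0 : ℝ) ≤ w := Nat.cast_nonneg w
        nlinarith

/-- Reciprocal sum of the good primes. -/
theorem sum_inv_LamM (w : ℕ) (hw : 2 ≤ w) (z : ℝ) (hz : (w : ℝ) ^ 2 ≤ z) :
    Real.log (Real.log z / (2 * Real.log w)) - 8 ≤ ∑ l ∈ LamM w ⌊z⌋₊, 1 / (l : ℝ) := by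
  classical
  have hwr : (2 : ℝ) ≤ w := by exact_mod_cast hw
  have hw4 : (4 : ℝ) ≤ (w : ℝ) ^ 2 := by nlinarith
  have hlogw : Real.log 2 ≤ Real.log w := Real.log_le_log (by norm_num) hwr
  have hl2 := Real.log_two_gt_d9
  have hlog2 : Real.log ((w : ℝ) ^ 2) = 2 * Real.log w := by
    rw [Real.log_pow]
    norm_num
  have h1 := (abs_le.1 (Pool.Agent.Lib.MP_973905_nt.PrimeSum.range_bound ((w : ℝ) ^ 2) z
    (by linarith) hz)).1
  rw [hlog2] at h1
  have hfl : ⌊(w : ℝ) ^ 2⌋₊ = w ^ 2 := by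
    rw [← Nat.cast_pow, Nat.floor_natCast]
  set B := (Ioc (w ^ 2) ⌊z⌋₊).filter (fun r => r.Prime ∧ ¬ w ≤ orderOf (2 : ZMod r)) with hB
  have hsplit : PS ((w : ℝ) ^ 2) z = LamM w ⌊z⌋₊ ∪ B := by
    ext r
    rw [Pool.Agent.Lib.MP_973905_nt.PS, hfl, mem_union, LamM, hB, mem_filter, mem_filter,
      mem_filter]
    by_cases h : w ≤ orderOf (2 : ZMod r)
    · simp [h]
    · simp [h]
  have hdisj : Disjoint (LamM w ⌊z⌋₊) B := by
    rw [disjoint_left]
    intro r hr hr'
    rw [mem_LamM] at hr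
    rw [hB, mem_filter] at hr'
    exact hr'.2.2 hr.2.2
  rw [hsplit, sum_union hdisj] at h1
  have hbad : ∑ l ∈ B, 1 / (l : ℝ) ≤ 1 / 4 := by
    have h2 : ∑ l ∈ B, 1 / (l : ℝ) ≤ B.card * (1 / (w : ℝ) ^ 2) := by
      rw [← nsmul_eq_mul]
      apply sum_le_card_nsmul
      intro l hl
      rw [hB, mem_filter, mem_Ioc] at hl
      apply one_div_le_one_div_of_le (by positivity)
      exact_mod_cast hl.1.1.le
    have h3 := bad_cardM w ⌊z⌋₊ hw
    rw [← hB, hlog2] at h3
    refine h2.trans ?_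
    rw [mul_one_div, div_le_iff₀ (by positivity)]
    have h4 : (B.card : ℝ) * (2 * Real.log 2) ≤ B.card * (2 * Real.log w) :=
      mul_le_mul_of_nonneg_left (by linarith) (Nat.cast_nonneg _)
    have h5 : (B.card : ℝ) * (2 * Real.log 2) ≤ (w : ℝ) ^ 2 / 2 * Real.log 2 := h4.trans h3
    nlinarith
  have h6 : 10 / (2 * Real.log w) ≤ 7.5 := by
    rw [div_le_iff₀ (by linarith)]
    linarith
  linarith

/-- Weighted logarithmic sum of the good primes. -/
theorem sum_log_LamM (w : ℕ) (z : ℝ) (hz : 1 ≤ z) :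
    ∑ l ∈ LamM w ⌊z⌋₊, Real.log l / l ≤ Real.log z + 5 := by
  have h1 := (abs_le.1 (Pool.Agent.Lib.MP_973905_nt.PrimeSum.A_bound z hz)).2
  have h2 : ∑ l ∈ LamM w ⌊z⌋₊, Real.log l / l ≤ Pool.Agent.Lib.MP_973905_nt.PrimeSum.A z := by
    unfold Pool.Agent.Lib.MP_973905_nt.PrimeSum.A
    apply sum_le_sum_of_subset_of_nonneg
    · intro l hl
      rw [mem_LamM] at hl
      rw [mem_filter, mem_Icc]
      exact ⟨⟨hl.2.1.one_lt.le, hl.1.2⟩, hl.2.1⟩
    · intro l hl _
      rw [mem_filter] at hl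
      apply div_nonneg (Real.log_nonneg _) (Nat.cast_nonneg _)
      exact_mod_cast hl.2.one_lt.le
  linarith

/-- The density sum is large. -/
theorem H_low (w : ℕ) (hw : 2 ≤ w) (ℓ : ℝ) (hℓ : 800 * w * Real.log w ≤ ℓ)
    (𝒬 : Finset (Finset ℕ)) (h𝒬' : 𝒬 ⊆ (LamM w ⌊Real.exp (ℓ / (80 * w))⌋₊).powerset)
    (h𝒬 : ∀ D ∈ (LamM w ⌊Real.exp (ℓ / (80 * w))⌋₊).powerset, D ∉ 𝒬 →
      Real.exp (ℓ / 8) ≤ ((∏ l ∈ D, l : ℕ) : ℝ)) :
    (ℓ / (320 * Real.exp 8 * w * Real.log w)) ^ w ≤
      ∑ D ∈ 𝒬, ∏ l ∈ D, ((w : ℝ) / (l - w)) := by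
  classical
  have hwr : (2 : ℝ) ≤ w := by exact_mod_cast hw
  have hl2 := Real.log_two_gt_d9
  have hlogw : Real.log 2 ≤ Real.log w := Real.log_le_log (by norm_num) hwr
  have hlw0 : 0 < Real.log w := by linarith
  set z := Real.exp (ℓ / (80 * w)) with hz
  set Λ := LamM w ⌊z⌋₊ with hΛ
  have hℓ0 : 0 < ℓ := by
    have : 0 < 800 * w * Real.log w := by positivity
    linarith
  have hlogz : Real.log z = ℓ / (80 * w) := by rw [hz, Real.log_exp]
  have hlogz5 : 10 * Real.log w ≤ Real.log z := by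
    rw [hlogz, le_div_iff₀ (by positivity)]
    linarith
  have hz1 : 1 ≤ z := by
    rw [hz]
    apply Real.one_le_exp
    positivity
  have hzw : (w : ℝ) ^ 2 ≤ z := by
    rw [← Real.log_le_log_iff (by positivity) (by linarith), Real.log_pow]
    push_cast
    linarith
  have hmem : ∀ l ∈ Λ, 2 * (w : ℝ) ≤ l ∧ (l : ℝ) ≤ z ∧ (0 : ℝ) < l - w ∧ (0 : ℝ) < l := by
    intro l hl
    rw [hΛ, mem_LamM] at hl
    have h1 : (w : ℝ) ^ 2 < l := by exact_mod_cast hl.1.1
    have h2 : (l : ℝ) ≤ z := (Nat.le_floor_iff (by linarith)).1 hl.1.2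
    refine ⟨by nlinarith, h2, by nlinarith, by nlinarith⟩
  set v : ℕ → ℝ := fun l => (w : ℝ) / (l - w) with hv
  have hv0 : ∀ l ∈ Λ, 0 ≤ v l := fun l hl => div_nonneg (Nat.cast_nonneg _) (hmem l hl).2.2.1.le
  set δ := 1 / Real.log z with hδ
  have hlz0 : 0 < Real.log z := by linarith
  have hδ0 : 0 ≤ δ := by positivity
  have hr := rankin Λ (fun l hl => by
    have := (hmem l hl).2.2.2
    exact_mod_cast this) v hv0 (Real.exp (ℓ / 8)) δ hδ0 (Real.exp_pos _) 𝒬 h𝒬 h𝒬'
  -- the product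
  have hP1 : Real.exp (w * ∑ l ∈ Λ, 1 / (l : ℝ)) ≤ ∏ l ∈ Λ, (1 + v l) := by
    rw [mul_sum, Real.exp_sum]
    apply prod_le_prod
    · intro l _
      exact (Real.exp_pos _).le
    · intro l hl
      obtain ⟨a, b, c, d⟩ := hmem l hl
      have h1 : 1 + v l = (1 - (w : ℝ) / l)⁻¹ := by
        simp only [hv]
        have e1 : 1 - (w : ℝ) / l = (l - w) / l := by field_simp
        rw [e1, inv_div]
        field_simp
        ring
      have h2 : 0 < 1 - (w : ℝ) / l := by
        rw [sub_pos, div_lt_one d]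
        linarith
      rw [h1, ← one_div, le_div_iff₀ h2]
      have h3 : 1 - (w : ℝ) / l ≤ Real.exp (-(w / l)) := by
        have := Real.add_one_le_exp (-((w : ℝ) / l))
        linarith
      calc Real.exp (w * (1 / (l : ℝ))) * (1 - (w : ℝ) / l)
          ≤ Real.exp (w * (1 / (l : ℝ))) * Real.exp (-(w / l)) :=
            mul_le_mul_of_nonneg_left h3 (Real.exp_pos _).le
        _ = 1 := by
            rw [← Real.exp_add, mul_one_div, add_neg_cancel, Real.exp_zero]
  have hP0 : 0 < ∏ l ∈ Λ, (1 + v l) := lt_of_lt_of_le (Real.exp_pos _) hP1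
  -- the Rankin factor
  have hP2 : ∏ l ∈ Λ, (1 + v l * (l : ℝ) ^ δ) ≤ (∏ l ∈ Λ, (1 + v l)) * Real.exp (8 * w) := by
    have h1 : ∀ l ∈ Λ, 1 + v l * (l : ℝ) ^ δ ≤
        (1 + v l) * Real.exp (4 * w * δ * (Real.log l / l)) := by
      intro l hl
      obtain ⟨a, b, c, d⟩ := hmem l hl
      have hll : 0 ≤ Real.log l := Real.log_nonneg (by linarith)
      have hx0 : 0 ≤ δ * Real.log l := mul_nonneg hδ0 hll
      have hx1 : δ * Real.log l ≤ 1 := by
        rw [hδ, one_div, inv_mul_le_iff₀ hlz0, mul_one]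
        exact Real.log_le_log d b
      have hpow : (l : ℝ) ^ δ = Real.exp (δ * Real.log l) := by
        rw [Real.rpow_def_of_pos d, mul_comm]
      have h2 : (l : ℝ) ^ δ ≤ 1 + 2 * (δ * Real.log l) := by
        rw [hpow]
        have h3 := Real.abs_exp_sub_one_sub_id_le (x := δ * Real.log l)
          (by rw [abs_of_nonneg hx0]; exact hx1)
        have h4 := (abs_le.1 h3).2
        nlinarith
      have h3 : v l ≤ 2 * w / l := by
        simp only [hv]
        rw [div_le_div_iff₀ c d]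
        nlinarith
      have h4 : 0 ≤ v l := hv0 l hl
      have h5 : v l * (2 * (δ * Real.log l)) ≤ 4 * w * δ * (Real.log l / l) := by
        calc v l * (2 * (δ * Real.log l)) ≤ 2 * w / l * (2 * (δ * Real.log l)) :=
              mul_le_mul_of_nonneg_right h3 (by positivity)
          _ = _ := by ring
      have h6 := Real.add_one_le_exp (4 * w * δ * (Real.log l / l))
      have h7 : 0 ≤ 4 * w * δ * (Real.log l / l) := by positivity
      calc 1 + v l * (l : ℝ) ^ δ ≤ 1 + v l * (1 + 2 * (δ * Real.log l)) := by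
            have := mul_le_mul_of_nonneg_left h2 h4
            linarith
        _ = 1 + v l + v l * (2 * (δ * Real.log l)) := by ring
        _ ≤ (1 + v l) * (4 * w * δ * (Real.log l / l) + 1) := by nlinarith
        _ ≤ _ := mul_le_mul_of_nonneg_left h6 (by linarith)
    calc ∏ l ∈ Λ, (1 + v l * (l : ℝ) ^ δ)
        ≤ ∏ l ∈ Λ, ((1 + v l) * Real.exp (4 * w * δ * (Real.log l / l))) := by
          apply prod_le_prod _ h1
          intro l hl
          have := hv0 l hl
          positivity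
      _ = (∏ l ∈ Λ, (1 + v l)) * Real.exp (4 * w * δ * ∑ l ∈ Λ, Real.log l / l) := by
          rw [prod_mul_distrib, mul_sum, Real.exp_sum]
      _ ≤ _ := by
          apply mul_le_mul_of_nonneg_left _ hP0.le
          apply Real.exp_le_exp.2
          have h2 := sum_log_LamM w z hz1
          rw [← hΛ] at h2
          have h3 : Real.log z + 5 ≤ 2 * Real.log z := by linarith
          calc 4 * w * δ * ∑ l ∈ Λ, Real.log l / l ≤ 4 * w * δ * (2 * Real.log z) :=
                mul_le_mul_of_nonneg_left (h2.trans h3) (by positivity)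
            _ = 8 * w := by
                rw [hδ]
                field_simp
                ring
  have hq : Real.exp (ℓ / 8) ^ (-δ) = Real.exp (-(10 * w)) := by
    rw [← Real.exp_mul]
    congr 1
    rw [hδ, hlogz]
    field_simp
    ring
  have hhalf : Real.exp (ℓ / 8) ^ (-δ) * ∏ l ∈ Λ, (1 + v l * (l : ℝ) ^ δ) ≤
      (∏ l ∈ Λ, (1 + v l)) / 2 := by
    rw [hq]
    calc Real.exp (-(10 * w)) * ∏ l ∈ Λ, (1 + v l * (l : ℝ) ^ δ)
        ≤ Real.exp (-(10 * w)) * ((∏ l ∈ Λ, (1 + v l)) * Real.exp (8 * w)) :=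
          mul_le_mul_of_nonneg_left hP2 (Real.exp_pos _).le
      _ = (∏ l ∈ Λ, (1 + v l)) * Real.exp (-(2 * w)) := by
          rw [mul_left_comm, ← Real.exp_add]
          congr 2
          ring
      _ ≤ (∏ l ∈ Λ, (1 + v l)) * (1 / 2) := by
          apply mul_le_mul_of_nonneg_left _ hP0.le
          rw [Real.exp_neg, ← one_div]
          apply one_div_le_one_div_of_le (by norm_num)
          have := Real.add_one_le_exp (2 * (w : ℝ))
          linarith
      _ = _ := by ring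
  have hfin : (ℓ / (320 * Real.exp 8 * w * Real.log w)) ^ w ≤ (∏ l ∈ Λ, (1 + v l)) / 2 := by
    have h1 := sum_inv_LamM w hw z hzw
    rw [← hΛ] at h1
    have h2 : 0 < Real.log z / (2 * Real.log w) := by positivity
    have h3 : Real.exp (w * (Real.log (Real.log z / (2 * Real.log w)) - 8)) ≤
        ∏ l ∈ Λ, (1 + v l) := by
      refine le_trans ?_ hP1
      apply Real.exp_le_exp.2
      exact mul_le_mul_of_nonneg_left h1 (Nat.cast_nonneg _)
    have h4 : Real.exp (w * (Real.log (Real.log z / (2 * Real.log w)) - 8)) =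
        (ℓ / (160 * Real.exp 8 * w * Real.log w)) ^ w := by
      rw [Real.exp_nat_mul, Real.exp_sub, Real.exp_log h2, hlogz]
      congr 1
      have := Real.exp_pos 8
      field_simp
      norm_num
    rw [h4] at h3
    have h5 : (ℓ / (320 * Real.exp 8 * w * Real.log w)) ^ w =
        (ℓ / (160 * Real.exp 8 * w * Real.log w)) ^ w / 2 ^ w := by
      rw [← div_pow]
      congr 1
      have := Real.exp_pos 8
      field_simp
      norm_num
    rw [h5]
    have h6 : (2 : ℝ) ≤ 2 ^ w := by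
      calc (2 : ℝ) = 2 ^ 1 := (pow_one _).symm
        _ ≤ 2 ^ w := pow_le_pow_right₀ (by norm_num) (by omega)
    have h7 : 0 ≤ (ℓ / (160 * Real.exp 8 * w * Real.log w)) ^ w := by positivity
    calc (ℓ / (160 * Real.exp 8 * w * Real.log w)) ^ w / 2 ^ w
        ≤ (ℓ / (160 * Real.exp 8 * w * Real.log w)) ^ w / 2 :=
          div_le_div_of_nonneg_left h7 (by norm_num) h6
      _ ≤ _ := by linarith
  linarith

end Pool.Agent.Lib.MP_39b545_nt.Long
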