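import Pool.Agent.Lib.MP_39b545_nt.Long.Count

/-!
# An upper bound sieve, uniform in the dimension
-/

set_option autoImplicit false

namespace Pool.Agent.Lib.MP_39b545_nt.Long

open Finset Pool.Agent.Lib.MP_d5700b_nt

/-- Correlation of two products of mean zero periodic functions on an interval. -/
theorem corr1 (Λ : Finset ℕ) (hΛ : ∀ l ∈ Λ, l.Prime)
    (G : ℕ → ℕ → ℝ) (hper : ∀ l ∈ Λ, Per (G l) l) (hb : ∀ l ∈ Λ, ∀ x, |G l x| ≤ 1)
    (hmean : ∀ l ∈ Λ, ∑ x ∈ range l, G l x = 0) (v : ℕ → ℝ)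
    (hvar : ∀ l ∈ Λ, ∑ x ∈ range l, G l x ^ 2 = v l * l) (D D' : Finset ℕ)
    (hD : D ⊆ Λ) (hD' : D' ⊆ Λ) (Q : ℕ) (hQ : ∏ l ∈ D, l ≤ Q) (hQ' : ∏ l ∈ D', l ≤ Q) (X : ℕ) :
    ∑ x ∈ range X, (∏ l ∈ D, G l x) * (∏ l ∈ D', G l x) ≤
      (if D = D' then (X : ℝ) * ∏ l ∈ D, v l else 0) + 2 * (Q : ℝ) ^ 2 := by
  classical
  set U := D ∪ D' with hU
  have hUΛ : ∀ l ∈ U, l ∈ Λ := by
    intro l hl
    rcases mem_union.1 hl with h | h
    · exact hD h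
    · exact hD' h
  set h : ℕ → ℕ → ℝ := fun l x => (if l ∈ D then G l x else 1) * (if l ∈ D' then G l x else 1)
    with hh
  have hprod : ∀ x, (∏ l ∈ D, G l x) * (∏ l ∈ D', G l x) = ∏ l ∈ U, h l x := by
    intro x
    rw [hh, prod_mul_distrib]
    congr 1
    · rw [prod_ite_mem, hU, union_inter_cancel_left]
    · rw [prod_ite_mem, hU, union_inter_cancel_right]
  have hper' : ∀ l ∈ U, Per (h l) (id l) := by
    intro l hl t
    simp only [hh, id]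
    have := hper l (hUΛ l hl) t
    rw [this]
  have hne : ∀ l ∈ U, id l ≠ 0 := fun l hl => (hΛ l (hUΛ l hl)).ne_zero
  have hcop : ∀ l ∈ U, ∀ l' ∈ U, l ≠ l' → Nat.Coprime (id l) (id l') :=
    fun l hl l' hl' hne => (Nat.coprime_primes (hΛ l (hUΛ l hl)) (hΛ l' (hUΛ l' hl'))).2 hne
  have hb' : ∀ l ∈ U, ∀ t, |h l t| ≤ 1 := by
    intro l hl t
    have h1 := hb l (hUΛ l hl) t
    simp only [hh]
    rw [abs_mul]
    apply mul_le_one₀ _ (abs_nonneg _)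
    · split_ifs
      · exact h1
      · simp
    · split_ifs
      · exact h1
      · simp
  have hm : (∏ l ∈ U, l) ≠ 0 := prod_ne_zero_iff.2 hne
  have hFper : Per (fun x => ∏ l ∈ U, h l x) (∏ l ∈ U, l) := per_prod U id h hper'
  have hFb : ∀ x, |∏ l ∈ U, h l x| ≤ 1 := by
    intro x
    rw [abs_prod]
    exact prod_le_one (fun _ _ => abs_nonneg _) (fun l hl => hb' l hl x)
  have happ := it_approx X hm 1 (fun x => ∏ l ∈ U, h l x) hFper hFb 0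
  have hit : it X 1 (fun x => ∏ l ∈ U, h l x) 0 = ∑ x ∈ range X, ∏ l ∈ U, h l x := by
    simp only [it, zero_add]
  rw [hit, pow_one, pow_one] at happ
  rw [sum_congr rfl (fun x _ => hprod x)]
  have h1 := (abs_le.1 happ).2
  have hmean' : (∑ z ∈ range (∏ l ∈ U, l), ∏ l ∈ U, h l z) / ((∏ l ∈ U, l : ℕ) : ℝ) =
      ∏ l ∈ U, ((∑ x ∈ range l, h l x) / l) := by
    have := sum_prod_complete U id h hper' hne hcop
    simp only [id] at this
    rw [this, prod_div_distrib]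
    push_cast
    rfl
  rw [hmean'] at h1
  have herr : ((∏ l ∈ U, l : ℕ) : ℝ) ≤ (Q : ℝ) ^ 2 := by
    have e1 : (∏ l ∈ U, l) * (∏ l ∈ D ∩ D', l) = (∏ l ∈ D, l) * (∏ l ∈ D', l) :=
      prod_union_inter
    have e2 : 1 ≤ ∏ l ∈ D ∩ D', l :=
      Nat.one_le_iff_ne_zero.2 (prod_ne_zero_iff.2 fun l hl =>
        (hΛ l (hD (mem_of_mem_inter_left hl))).ne_zero)
    have e3 : (∏ l ∈ U, l) ≤ Q ^ 2 := by
      calc (∏ l ∈ U, l) ≤ (∏ l ∈ U, l) * (∏ l ∈ D ∩ D', l) := Nat.le_mul_of_pos_right _ e2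
        _ = _ := e1
        _ ≤ Q * Q := Nat.mul_le_mul hQ hQ'
        _ = Q ^ 2 := by ring
    exact_mod_cast e3
  have hmain : ∏ l ∈ U, ((∑ x ∈ range l, h l x) / l) = if D = D' then ∏ l ∈ D, v l else 0 := by
    split_ifs with heq
    · have hUD : U = D := by rw [hU, ← heq, union_self]
      rw [hUD]
      apply prod_congr rfl
      intro l hl
      have hl0 : (0 : ℝ) < l := by exact_mod_cast (hΛ l (hD hl)).pos
      rw [div_eq_iff hl0.ne', ← hvar l (hD hl)]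
      apply sum_congr rfl
      intro x _
      simp only [hh, ← heq, if_pos hl]
      ring
    · obtain ⟨p, hp⟩ : ∃ p, ¬ (p ∈ D ↔ p ∈ D') := by
        by_contra hcon
        push Not at hcon
        exact heq (Finset.ext hcon)
      have hpU : p ∈ U := by
        rw [hU, mem_union]
        by_contra hcon
        push Not at hcon
        exact hp ⟨fun h => absurd h hcon.1, fun h => absurd h hcon.2⟩
      apply prod_eq_zero hpU
      have h2 : ∑ x ∈ range p, h p x = ∑ x ∈ range p, G p x := by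
        apply sum_congr rfl
        intro x _
        simp only [hh]
        by_cases h3 : p ∈ D <;> by_cases h4 : p ∈ D'
        · exact absurd ⟨fun _ => h4, fun _ => h3⟩ hp
        · rw [if_pos h3, if_neg h4, mul_one]
        · rw [if_neg h3, if_pos h4, one_mul]
        · exact absurd ⟨fun h => absurd h h3, fun h => absurd h h4⟩ hp
      rw [h2, hmean p (hUΛ p hpU), zero_div]
  rw [hmain] at h1
  have h3 : (X : ℝ) * (if D = D' then ∏ l ∈ D, v l else 0) =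
      (if D = D' then (X : ℝ) * ∏ l ∈ D, v l else 0) := by
    split_ifs <;> ring
  rw [h3] at h1
  linarith

/-- **Upper bound sieve.** `w` classes are removed modulo each `l ∈ Λ`. -/
theorem usieve (Λ : Finset ℕ) (hΛ : ∀ l ∈ Λ, l.Prime) (w : ℕ) (hlw : ∀ l ∈ Λ, 2 * w ≤ l)
    (I : ℕ → ℕ → ℝ) (hper : ∀ l ∈ Λ, Per (I l) l) (hI : ∀ l x, I l x = 0 ∨ I l x = 1)
    (hdens : ∀ l ∈ Λ, ∑ x ∈ range l, I l x = l - w) (Q X : ℕ) (𝒬 : Finset (Finset ℕ))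
    (h𝒬 : ∀ D ∈ 𝒬, D ⊆ Λ ∧ ∏ l ∈ D, l ≤ Q) (h0 : ∅ ∈ 𝒬)
    (S : Finset ℕ) (hS : ∀ x ∈ S, x < X ∧ ∀ l ∈ Λ, I l x = 1) :
    (S.card : ℝ) ≤ X / (∑ D ∈ 𝒬, ∏ l ∈ D, ((w : ℝ) / (l - w))) + 2 * (Q : ℝ) ^ 4 := by
  classical
  have hlpos : ∀ l ∈ Λ, (0 : ℝ) < l := fun l hl => by exact_mod_cast (hΛ l hl).pos
  have hw0 : (0 : ℝ) ≤ w := Nat.cast_nonneg w
  have hlw' : ∀ l ∈ Λ, 2 * (w : ℝ) ≤ l := fun l hl => by exact_mod_cast hlw l hl
  have hsub : ∀ l ∈ Λ, (0 : ℝ) < l - w := by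
    intro l hl
    have h1 := hlpos l hl
    have h2 := hlw' l hl
    linarith
  set v : ℕ → ℝ := fun l => (w : ℝ) / (l - w) with hv
  have hv0 : ∀ l ∈ Λ, 0 ≤ v l := fun l hl => div_nonneg hw0 (hsub l hl).le
  have hv1 : ∀ l ∈ Λ, v l ≤ 1 := by
    intro l hl
    simp only [hv]
    rw [div_le_one (hsub l hl)]
    linarith [hlw' l hl]
  set G : ℕ → ℕ → ℝ := fun l x => I l x * (l / (l - w)) - 1 with hG
  have hG1 : ∀ l ∈ Λ, ∀ x, I l x = 1 → G l x = v l := by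
    intro l hl x hx
    have := hsub l hl
    simp only [hG, hv, hx]
    field_simp
    ring
  have hG0 : ∀ l x, I l x = 0 → G l x = -1 := by
    intro l x hx
    simp only [hG, hx]
    ring
  have hGb : ∀ l ∈ Λ, ∀ x, |G l x| ≤ 1 := by
    intro l hl x
    rcases hI l x with h | h
    · rw [hG0 l x h]
      simp
    · rw [hG1 l hl x h, abs_of_nonneg (hv0 l hl)]
      exact hv1 l hl
  have hmean : ∀ l ∈ Λ, ∑ x ∈ range l, G l x = 0 := by
    intro l hl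
    have := hsub l hl
    simp only [hG]
    rw [sum_sub_distrib, ← sum_mul, hdens l hl, sum_const, card_range, nsmul_eq_mul]
    field_simp
    ring
  have hvar : ∀ l ∈ Λ, ∑ x ∈ range l, G l x ^ 2 = v l * l := by
    intro l hl
    have h3 := hsub l hl
    have h1 : ∀ x, G l x ^ 2 = (v l ^ 2 - 1) * I l x + 1 := by
      intro x
      rcases hI l x with h | h
      · rw [hG0 l x h, h]
        ring
      · rw [hG1 l hl x h, h]
        ring
    rw [sum_congr rfl (fun x _ => h1 x), sum_add_distrib, ← mul_sum, hdens l hl, sum_const,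
      card_range, nsmul_eq_mul]
    simp only [hv]
    field_simp
    ring
  have hperG : ∀ l ∈ Λ, Per (G l) l := by
    intro l hl t
    simp only [hG]
    rw [hper l hl t]
  set W : ℕ → ℝ := fun x => ∑ D ∈ 𝒬, ∏ l ∈ D, G l x with hW
  set H := ∑ D ∈ 𝒬, ∏ l ∈ D, v l with hH
  have hH1 : 1 ≤ H := by
    have h1 : ∏ l ∈ (∅ : Finset ℕ), v l ≤ H :=
      single_le_sum (f := fun D => ∏ l ∈ D, v l)
        (fun D hD => prod_nonneg fun l hl => hv0 l ((h𝒬 D hD).1 hl)) h0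
    simpa using h1
  have hcard : (𝒬.card : ℝ) ≤ Q := by
    have h1 : 𝒬.card ≤ (Icc 1 Q).card := by
      apply card_le_card_of_injOn (fun D => ∏ l ∈ D, l)
      · intro D hD
        rw [mem_coe, mem_Icc]
        exact ⟨Nat.one_le_iff_ne_zero.2 (prod_ne_zero_iff.2 fun l hl =>
          (hΛ l ((h𝒬 D hD).1 hl)).ne_zero), (h𝒬 D hD).2⟩
      · intro D hD D' hD' heq
        simp only at heq
        rw [← Nat.primeFactors_prod (fun l hl => hΛ l ((h𝒬 D hD).1 hl)), heq,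
          Nat.primeFactors_prod (fun l hl => hΛ l ((h𝒬 D' hD').1 hl))]
    rw [Nat.card_Icc, Nat.add_sub_cancel] at h1
    exact_mod_cast h1
  have hWS : ∀ x ∈ S, W x = H := by
    intro x hx
    simp only [hW, hH]
    apply sum_congr rfl
    intro D hD
    apply prod_congr rfl
    intro l hl
    exact hG1 l ((h𝒬 D hD).1 hl) x ((hS x hx).2 l ((h𝒬 D hD).1 hl))
  have hup : ∑ x ∈ range X, W x ^ 2 ≤ X * H + 2 * (Q : ℝ) ^ 4 := by
    have e1 : ∀ x, W x ^ 2 = ∑ D ∈ 𝒬, ∑ D' ∈ 𝒬, (∏ l ∈ D, G l x) * (∏ l ∈ D', G l x) := by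
      intro x
      simp only [hW, sq, sum_mul_sum]
    rw [sum_congr rfl fun x _ => e1 x, sum_comm]
    calc ∑ D ∈ 𝒬, ∑ x ∈ range X, ∑ D' ∈ 𝒬, (∏ l ∈ D, G l x) * (∏ l ∈ D', G l x)
        = ∑ D ∈ 𝒬, ∑ D' ∈ 𝒬, ∑ x ∈ range X, (∏ l ∈ D, G l x) * (∏ l ∈ D', G l x) := by
          apply sum_congr rfl
          intro D _
          rw [sum_comm]
      _ ≤ ∑ D ∈ 𝒬, ∑ D' ∈ 𝒬, ((if D = D' then (X : ℝ) * ∏ l ∈ D, v l else 0) +
            2 * (Q : ℝ) ^ 2) := by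
          apply sum_le_sum
          intro D hD
          apply sum_le_sum
          intro D' hD'
          exact corr1 Λ hΛ G hperG hGb hmean v hvar D D' (h𝒬 D hD).1 (h𝒬 D' hD').1 Q
            (h𝒬 D hD).2 (h𝒬 D' hD').2 X
      _ = X * H + (𝒬.card : ℝ) ^ 2 * (2 * (Q : ℝ) ^ 2) := by
          simp only [sum_add_distrib, sum_const, nsmul_eq_mul]
          rw [sum_congr rfl (g := fun D => (X : ℝ) * ∏ l ∈ D, v l)
            (fun D hD => by rw [sum_ite_eq, if_pos hD]), ← mul_sum]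
          ring
      _ ≤ X * H + (Q : ℝ) ^ 2 * (2 * (Q : ℝ) ^ 2) := by
          have := pow_le_pow_left₀ (Nat.cast_nonneg _) hcard 2
          have h5 : (0 : ℝ) ≤ 2 * (Q : ℝ) ^ 2 := by positivity
          have := mul_le_mul_of_nonneg_right this h5
          linarith
      _ = _ := by ring
  have hlow : (S.card : ℝ) * H ^ 2 ≤ ∑ x ∈ range X, W x ^ 2 := by
    calc (S.card : ℝ) * H ^ 2 = ∑ x ∈ S, W x ^ 2 := by
          rw [sum_congr rfl (fun x hx => by rw [hWS x hx]), sum_const, nsmul_eq_mul]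
      _ ≤ _ := sum_le_sum_of_subset_of_nonneg (fun x hx => mem_range.2 (hS x hx).1)
          (fun _ _ _ => sq_nonneg _)
  have h1 := hlow.trans hup
  have h2 : (S.card : ℝ) ≤ (X * H + 2 * (Q : ℝ) ^ 4) / H ^ 2 := by
    rw [le_div_iff₀ (by positivity)]
    exact h1
  refine h2.trans ?_
  rw [add_div]
  apply add_le_add
  · rw [sq, mul_div_mul_right _ _ (by positivity)]
  · apply div_le_self (by positivity)
    exact one_le_pow₀ hH1

/-- Rankin's trick. -/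
theorem rankin (Λ : Finset ℕ) (hΛ : ∀ l ∈ Λ, 0 < l) (v : ℕ → ℝ) (hv : ∀ l ∈ Λ, 0 ≤ v l)
    (q δ : ℝ) (hδ : 0 ≤ δ) (hq : 0 < q) (𝒬 : Finset (Finset ℕ))
    (h𝒬 : ∀ D ∈ Λ.powerset, D ∉ 𝒬 → q ≤ ((∏ l ∈ D, l : ℕ) : ℝ))
    (h𝒬' : 𝒬 ⊆ Λ.powerset) :
    ∏ l ∈ Λ, (1 + v l) - q ^ (-δ) * ∏ l ∈ Λ, (1 + v l * (l : ℝ) ^ δ) ≤
      ∑ D ∈ 𝒬, ∏ l ∈ D, v l := by
  classical
  have h1 : ∏ l ∈ Λ, (1 + v l) = ∑ D ∈ Λ.powerset, ∏ l ∈ D, v l := prod_one_add Λ
  have h2 : ∏ l ∈ Λ, (1 + v l * (l : ℝ) ^ δ) =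
      ∑ D ∈ Λ.powerset, ∏ l ∈ D, (v l * (l : ℝ) ^ δ) := prod_one_add Λ
  rw [h1, h2, mul_sum, ← sum_sub_distrib, ← sum_sdiff h𝒬']
  have h3 : ∑ D ∈ Λ.powerset \ 𝒬, (∏ l ∈ D, v l -
      q ^ (-δ) * ∏ l ∈ D, (v l * (l : ℝ) ^ δ)) ≤ 0 := by
    apply sum_nonpos
    intro D hD
    rw [mem_sdiff] at hD
    have hDΛ := mem_powerset.1 hD.1
    rw [prod_mul_distrib, Real.finsetProd_rpow _ _ (fun l _ => Nat.cast_nonneg l), ← Nat.cast_prod]
    have h4 := h𝒬 D hD.1 hD.2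
    have h5 : 1 ≤ q ^ (-δ) * (((∏ l ∈ D, l : ℕ) : ℝ)) ^ δ := by
      have h6 : q ^ δ ≤ (((∏ l ∈ D, l : ℕ) : ℝ)) ^ δ := Real.rpow_le_rpow hq.le h4 hδ
      rw [Real.rpow_neg hq.le]
      have h7 : 0 < q ^ δ := Real.rpow_pos_of_pos hq _
      rw [inv_mul_eq_div, le_div_iff₀ h7]
      linarith
    have h8 : 0 ≤ ∏ l ∈ D, v l := prod_nonneg fun l hl => hv l (hDΛ hl)
    nlinarith
  have h4 : ∑ D ∈ 𝒬, (∏ l ∈ D, v l - q ^ (-δ) * ∏ l ∈ D, (v l * (l : ℝ) ^ δ)) ≤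
      ∑ D ∈ 𝒬, ∏ l ∈ D, v l := by
    apply sum_le_sum
    intro D hD
    have hDΛ := mem_powerset.1 (h𝒬' hD)
    have h5 : 0 ≤ ∏ l ∈ D, (v l * (l : ℝ) ^ δ) :=
      prod_nonneg fun l hl => mul_nonneg (hv l (hDΛ hl)) (Real.rpow_nonneg (Nat.cast_nonneg _) _)
    have h6 : 0 ≤ q ^ (-δ) := Real.rpow_nonneg hq.le _
    nlinarith [mul_nonneg h6 h5]
  linarith

end Pool.Agent.Lib.MP_39b545_nt.Long
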