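import Pool.Agent.Lib.MP_39b545_nt.Long.ULow

/-!
# The first bound: `X (C k log k / log X)^k`
-/

set_option autoImplicit false

namespace Pool.Agent.Lib.MP_39b545_nt.Long

open Finset Pool.Agent.Lib.MP_d5700b_nt

/-- The starting points `p ≤ X` of chains of length at least `k`. -/
def chainSet (k X : ℕ) : Set ℕ := {p : ℕ | p ≤ X ∧ ∀ i < k, (2 ^ i * (p - 1) + 1).Prime}

theorem chainSet_finite (k X : ℕ) : (chainSet k X).Finite :=
  (Set.finite_Iic X).subset fun _ hp => hp.1

theorem chainSet_anti {k k' : ℕ} (h : k' ≤ k) (X : ℕ) :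
    (chainSet k X).ncard ≤ (chainSet k' X).ncard :=
  Set.ncard_le_ncard (fun _ hp => ⟨hp.1, fun i hi => hp.2 i (lt_of_lt_of_le hi h)⟩)
    (chainSet_finite k' X)

theorem chainSet_le (k X : ℕ) (hk : 1 ≤ k) : (chainSet k X).ncard ≤ X := by
  classical
  have h1 : chainSet k X ⊆ ((Ioc 0 X : Finset ℕ) : Set ℕ) := by
    intro p hp
    rw [coe_Ioc, Set.mem_Ioc]
    refine ⟨?_, hp.1⟩
    have h2 := hp.2 0 hk
    rw [pow_zero, one_mul] at h2
    rcases Nat.eq_zero_or_pos p with h | h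
    · rw [h] at h2
      exact absurd h2 Nat.not_prime_one
    · exact h
  have h2 := Set.ncard_le_ncard h1 (Finset.finite_toSet _)
  rwa [Set.ncard_coe_finset, Nat.card_Ioc, Nat.sub_zero] at h2

/-- The numbers `n < X`, `n > M`, with `2^i n + 1` prime for all `i < w`. -/
noncomputable def SM (w M X : ℕ) : Finset ℕ := by
  classical
  exact (range X).filter (fun n => M < n ∧ ∀ i < w, (2 ^ i * n + 1).Prime)

theorem SM_ind (w M X : ℕ) : ∀ x ∈ SM w M X, x < X ∧ ∀ l ∈ LamM w M, Ind w l x = 1 := by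
  classical
  intro x hx
  rw [SM, mem_filter, mem_range] at hx
  refine ⟨hx.1, ?_⟩
  intro l hl
  rw [mem_LamM] at hl
  unfold Ind
  rw [if_neg]
  rintro ⟨i, hi, hdvd⟩
  have h1 := hx.2.2 i hi
  have h2 := (Nat.dvd_prime h1).1 hdvd
  have h3 : 1 * x ≤ 2 ^ i * x := Nat.mul_le_mul_right x Nat.one_le_two_pow
  have h4 := hl.2.1.one_lt
  rcases h2 with h2 | h2 <;> omega

theorem chainSet_le_SM (k M X : ℕ) (hk : 1 ≤ k) :
    (chainSet k X).ncard ≤ M + 1 + (SM k M X).card := by
  classical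
  have hsub : chainSet k X ⊆
      (((range (M + 1)) ∪ (SM k M X)).image (fun n => n + 1) : Finset ℕ) := by
    intro p hp
    obtain ⟨h1, h2⟩ := hp
    have h4 : p ≠ 0 := by
      rintro rfl
      have := h2 0 hk
      rw [pow_zero, one_mul] at this
      exact Nat.not_prime_one this
    rw [coe_image]
    refine ⟨p - 1, ?_, Nat.sub_add_cancel (Nat.pos_of_ne_zero h4)⟩
    rw [mem_coe, mem_union, mem_range]
    by_cases h5 : p - 1 < M + 1
    · exact Or.inl h5
    · right
      rw [SM, mem_filter, mem_range]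
      exact ⟨by omega, by omega, h2⟩
  have h1 := Set.ncard_le_ncard hsub (Finset.finite_toSet _)
  rw [Set.ncard_coe_finset] at h1
  refine h1.trans (card_image_le.trans ((card_union_le _ _).trans ?_))
  rw [card_range]

theorem low_bound (k X : ℕ) (hk : 2 ≤ k) (hX : 2 ≤ X) :
    ((chainSet k X).ncard : ℝ) ≤
      X * (640 * Real.exp 8 * k * Real.log k / Real.log X) ^ k := by
  classical
  have hkr : (2 : ℝ) ≤ k := by exact_mod_cast hk
  have hXr : (2 : ℝ) ≤ X := by exact_mod_cast hX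
  have hl2 := Real.log_two_gt_d9
  have hlk : Real.log 2 ≤ Real.log k := Real.log_le_log (by norm_num) hkr
  have hlX : Real.log 2 ≤ Real.log X := Real.log_le_log (by norm_num) hXr
  set ℓ := Real.log X with hℓ
  have hexp : Real.exp ℓ = X := Real.exp_log (by linarith)
  have he8 : (9 : ℝ) ≤ Real.exp 8 := by
    have := Real.add_one_le_exp (8 : ℝ)
    linarith
  set c : ℝ := 640 * Real.exp 8 with hc
  have hc1 : (800 : ℝ) ≤ c := by linarith
  by_cases hbig : ℓ ≤ c * k * Real.log k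
  · -- trivial range
    have h1 : 1 ≤ c * k * Real.log k / ℓ := by
      rw [le_div_iff₀ (by linarith), one_mul]
      exact hbig
    have h2 := chainSet_le k X (by omega)
    calc ((chainSet k X).ncard : ℝ) ≤ X := by exact_mod_cast h2
      _ ≤ X * (c * k * Real.log k / ℓ) ^ k :=
          le_mul_of_one_le_right (by linarith) (one_le_pow₀ h1)
  push Not at hbig
  have hℓ0 : 0 < ℓ := by linarith
  have hlk0 : 0 < Real.log k := by linarith
  have hkl0 : 1 ≤ k * Real.log k := by nlinarith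
  have hℓ1 : 800 * k * Real.log k ≤ ℓ := by
    have : 800 * k * Real.log k ≤ c * k * Real.log k := by
      rw [mul_assoc, mul_assoc]
      exact mul_le_mul_of_nonneg_right hc1 (by positivity)
    linarith
  have hℓ2 : 800 ≤ ℓ := by nlinarith
  set M := ⌊Real.exp (ℓ / (80 * k))⌋₊ with hM
  set Q := ⌊Real.exp (ℓ / 8)⌋₊ with hQ
  set Λ := LamM k M with hΛ
  set 𝒬 := Λ.powerset.filter (fun D => ∏ l ∈ D, l ≤ Q) with h𝒬
  have hΛk : ∀ l ∈ Λ, 2 * k ≤ l := by
    intro l hl
    rw [hΛ, mem_LamM] at hl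
    nlinarith [hl.1.1]
  have hs := usieve Λ (fun l hl => (mem_LamM.1 hl).2.1) k hΛk (Ind k) (fun l _ => Ind_per k l)
    (fun l x => Ind_zero_or_one k l x)
    (fun l hl => Ind_sum k l (mem_LamM.1 hl).2.1 (by
      have := hΛk l hl
      omega) (mem_LamM.1 hl).2.2) Q X 𝒬
    (fun D hD => by
      rw [h𝒬, mem_filter, mem_powerset] at hD
      exact hD)
    (by
      rw [h𝒬, mem_filter]
      refine ⟨empty_mem_powerset _, ?_⟩
      rw [prod_empty, hQ, Nat.one_le_floor_iff]
      apply Real.one_le_exp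
      positivity)
    (SM k M X) (SM_ind k M X)
  have hH := H_low k hk ℓ hℓ1 𝒬 (filter_subset _ _) (by
    intro D hD hD'
    rw [h𝒬, mem_filter, not_and, not_le] at hD'
    have h1 := hD' hD
    have h2 := Nat.lt_floor_add_one (Real.exp (ℓ / 8))
    have h3 : (Q : ℝ) + 1 ≤ ((∏ l ∈ D, l : ℕ) : ℝ) := by exact_mod_cast h1
    rw [← hQ] at h2
    linarith)
  set H := ∑ D ∈ 𝒬, ∏ l ∈ D, ((k : ℝ) / (l - k)) with hHdef
  set y := c * k * Real.log k / ℓ with hy
  have hy0 : 0 < y := by positivity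
  have hy1 : y < 1 := by
    rw [hy, div_lt_one hℓ0]
    exact hbig
  have e1 : (ℓ / (320 * Real.exp 8 * k * Real.log k)) ^ k = 2 ^ k / y ^ k := by
    rw [← div_pow]
    congr 1
    rw [hy, hc]
    have := Real.exp_pos 8
    field_simp
    norm_num
  rw [e1] at hH
  have hyk : 0 < y ^ k := by positivity
  have h2k : (4 : ℝ) ≤ 2 ^ k := by
    calc (4 : ℝ) = 2 ^ 2 := by norm_num
      _ ≤ 2 ^ k := pow_le_pow_right₀ (by norm_num) hk
  have hH4 : 4 / y ^ k ≤ H := le_trans (div_le_div_of_nonneg_right h2k hyk.le) hH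
  have hX0 : (0 : ℝ) < X := by linarith
  have ht1 : (X : ℝ) / H ≤ X * y ^ k / 4 := by
    have h1 : 0 < 4 / y ^ k := by positivity
    calc (X : ℝ) / H ≤ X / (4 / y ^ k) := div_le_div_of_nonneg_left hX0.le h1 hH4
      _ = _ := by field_simp
  have hQ4 : 2 * (Q : ℝ) ^ 4 ≤ 2 * Real.exp (ℓ / 2) := by
    have h1 : (Q : ℝ) ≤ Real.exp (ℓ / 8) := Nat.floor_le (Real.exp_pos _).le
    have h2 := pow_le_pow_left₀ (Nat.cast_nonneg _) h1 4
    have h3 : Real.exp (ℓ / 8) ^ 4 = Real.exp (ℓ / 2) := by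
      rw [← Real.exp_nat_mul]
      congr 1
      push_cast
      ring
    rw [h3] at h2
    linarith
  have hMe : (M : ℝ) + 1 ≤ 2 * Real.exp (ℓ / 2) := by
    have h1 : (M : ℝ) ≤ Real.exp (ℓ / (80 * k)) := Nat.floor_le (Real.exp_pos _).le
    have h2 : Real.exp (ℓ / (80 * k)) ≤ Real.exp (ℓ / 2) := by
      apply Real.exp_le_exp.2
      apply div_le_div_of_nonneg_left hℓ0.le (by norm_num)
      linarith
    have h3 : 1 ≤ Real.exp (ℓ / 2) := Real.one_le_exp (by positivity)
    linarith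
  have hcard := chainSet_le_SM k M X (by omega)
  have hcard' : ((chainSet k X).ncard : ℝ) ≤ M + 1 + (SM k M X).card := by exact_mod_cast hcard
  have hyexp : Real.exp (-(ℓ / 4)) ≤ y ^ k := by
    have h1 : -(ℓ / 4) ≤ k * Real.log y := by
      have h2 : Real.log (1 / y) ≤ 1 / y := by
        have := Real.log_le_sub_one_of_pos (show 0 < 1 / y by positivity)
        linarith
      rw [one_div, Real.log_inv] at h2
      have h3 : k * y⁻¹ ≤ ℓ / 4 := by
        rw [hy, inv_div, mul_div_assoc', div_le_div_iff₀ (by positivity) (by norm_num)]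
        have h4 : 4 ≤ c * Real.log k := by nlinarith
        have h5 : (0 : ℝ) ≤ k * ℓ := by positivity
        calc k * ℓ * 4 ≤ k * ℓ * (c * Real.log k) := mul_le_mul_of_nonneg_left h4 h5
          _ = _ := by ring
      have h6 : (0 : ℝ) ≤ k := by linarith
      nlinarith
    calc Real.exp (-(ℓ / 4)) ≤ Real.exp (k * Real.log y) := Real.exp_le_exp.2 h1
      _ = y ^ k := by rw [Real.exp_nat_mul, Real.exp_log hy0]
  have hlast : 4 * Real.exp (ℓ / 2) ≤ 3 / 4 * (X * y ^ k) := by
    have h1 : Real.exp (3 * ℓ / 4) ≤ X * y ^ k := by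
      calc Real.exp (3 * ℓ / 4) = X * Real.exp (-(ℓ / 4)) := by
            rw [← hexp, ← Real.exp_add]
            congr 1
            ring
        _ ≤ _ := mul_le_mul_of_nonneg_left hyexp hX0.le
    have h2 : Real.exp (3 * ℓ / 4) = Real.exp (ℓ / 2) * Real.exp (ℓ / 4) := by
      rw [← Real.exp_add]
      congr 1
      ring
    have h3 := Real.add_one_le_exp (ℓ / 4)
    have h4 := Real.exp_pos (ℓ / 2)
    nlinarith
  linarith

end Pool.Agent.Lib.MP_39b545_nt.Long
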