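import Pool.Agent.Lib.MP_39b545_nt.Long.UT1

/-!
# The second bound: `X (C log X / k)^((1/4 - ε) log X / log k)`
-/

set_option autoImplicit false

namespace Pool.Agent.Lib.MP_39b545_nt.Long

open Finset Filter Topology

theorem SS_eq_SM (w X : ℕ) : SS w X = SM w (4 * w ^ 2) X := rfl

theorem mid_bound (ε : ℝ) (hε : 0 < ε) (hε1 : ε ≤ 1 / 4) : ∃ ℓ₀ : ℝ, ∀ X w : ℕ,
    ℓ₀ ≤ Real.log X → 64 * Real.log X ≤ w → (w : ℝ) ≤ Real.exp (ε / 8 * Real.log X) →
    ((chainSet w X).ncard : ℝ) ≤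
      X * (64 * Real.log X / w) ^ ((1 / 4 - ε) * Real.log X / Real.log w) := by
  obtain ⟨w₀, hw₀⟩ := SS_bound
  set K := ⌈2 / ε⌉₊ with hK
  have hK1 : 1 ≤ K := Nat.one_le_iff_ne_zero.2 (by
    rw [hK, Ne, Nat.ceil_eq_zero, not_le]
    positivity)
  have hKη : 2 ≤ ε * (K + 1) := by
    have : 2 / ε ≤ K := Nat.le_ceil _
    rw [div_le_iff₀ hε] at this
    nlinarith
  have hKr : (1 : ℝ) ≤ K := by exact_mod_cast hK1
  set C₁ : ℝ := 3 * (2 * K : ℝ) ^ (K - 1) with hC₁
  set C₂ : ℝ := 2 * (K : ℝ) ^ (K - 1) with hC₂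
  have hC₁1 : 1 ≤ C₁ := by
    have : 1 ≤ (2 * K : ℝ) ^ (K - 1) := one_le_pow₀ (by linarith)
    linarith
  have hC₂0 : 0 ≤ C₂ := by positivity
  have hl2 := Real.log_two_gt_d9
  have hl2' := Real.log_two_lt_d9
  have hlC : 0 ≤ Real.log (3 * C₁) := Real.log_nonneg (by linarith)
  -- eventual conditions
  have E1 : ∀ᶠ ℓ : ℝ in atTop, (w₀ : ℝ) ≤ ℓ ∧ Real.exp (1 / ε) ≤ ℓ ∧ Real.log (4 * K) ≤ ℓ ∧
      100 ≤ ℓ :=
    (eventually_ge_atTop _).and ((eventually_ge_atTop _).and
      ((eventually_ge_atTop _).and (eventually_ge_atTop _)))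
  have E2 : ∀ᶠ ℓ : ℝ in atTop, Real.log (3 * C₁) ≤ 3 / 16 * ε * ℓ := by
    filter_upwards [eventually_ge_atTop (Real.log (3 * C₁) / (3 / 16 * ε))] with ℓ h
    rw [div_le_iff₀ (by positivity)] at h
    linarith
  have E3 : ∀ᶠ ℓ : ℝ in atTop, (Real.log (3 * C₁) / Real.log 2 + 1) * Real.log (32 * ℓ) ≤
      ε / 4 * ℓ := by
    set D := Real.log (3 * C₁) / Real.log 2 + 1 with hD
    have hD1 : 1 ≤ D := by
      have : 0 ≤ Real.log (3 * C₁) / Real.log 2 := div_nonneg hlC (by linarith)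
      linarith
    have h1 : ∀ᶠ ℓ : ℝ in atTop, Real.log ℓ ≤ (ε / (8 * D)) * ℓ := by
      have h := Real.isLittleO_log_id_atTop.def (c := ε / (8 * D)) (by positivity)
      filter_upwards [h, eventually_ge_atTop 1] with x hx hx1
      rw [Real.norm_of_nonneg (Real.log_nonneg hx1), id, Real.norm_of_nonneg (by linarith)] at hx
      exact hx
    filter_upwards [h1, eventually_ge_atTop (D * Real.log 32 * 8 / ε), eventually_ge_atTop 1]
      with ℓ a b c
    rw [Real.log_mul (by norm_num) (by linarith), mul_add]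
    have h2 : D * Real.log ℓ ≤ ε / 8 * ℓ := by
      calc D * Real.log ℓ ≤ D * ((ε / (8 * D)) * ℓ) := mul_le_mul_of_nonneg_left a (by linarith)
        _ = ε / 8 * ℓ := by field_simp
    have h3 : D * Real.log 32 ≤ ε / 8 * ℓ := by
      rw [div_le_iff₀ hε] at b
      linarith
    linarith
  have E4 : ∀ᶠ ℓ : ℝ in atTop, 3 * (4 * Real.exp (ℓ / 16) + 1 + C₂) ≤ Real.exp (3 / 4 * ℓ) := by
    filter_upwards [eventually_ge_atTop (3 * (5 + C₂) * (16 / 11)), eventually_ge_atTop 0]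
      with ℓ a b
    have h2 : Real.exp (3 / 4 * ℓ) = Real.exp (ℓ / 16) * Real.exp (11 / 16 * ℓ) := by
      rw [← Real.exp_add]
      congr 1
      ring
    have h3 : 1 ≤ Real.exp (ℓ / 16) := Real.one_le_exp (by positivity)
    have h4 : 3 * (5 + C₂) ≤ Real.exp (11 / 16 * ℓ) := by
      have := Real.add_one_le_exp (11 / 16 * ℓ)
      linarith
    rw [h2]
    calc 3 * (4 * Real.exp (ℓ / 16) + 1 + C₂) ≤ Real.exp (ℓ / 16) * (3 * (5 + C₂)) := by
          nlinarith
      _ ≤ _ := mul_le_mul_of_nonneg_left h4 (by positivity)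
  obtain ⟨ℓ₀, hℓ₀⟩ := eventually_atTop.1 (E1.and (E2.and (E3.and E4)))
  refine ⟨ℓ₀, fun X w hX hw hwX => ?_⟩
  set ℓ := Real.log X with hℓ
  obtain ⟨⟨e1, e2, e3, e4⟩, e5, e6, e7⟩ := hℓ₀ ℓ hX
  have hXpos : (0 : ℝ) < X := by
    rcases Nat.eq_zero_or_pos X with h | h
    · rw [h, Nat.cast_zero, Real.log_zero] at hℓ
      linarith
    · exact_mod_cast h
  have hexp : Real.exp ℓ = X := Real.exp_log hXpos
  have hℓ0 : 0 < ℓ := by linarith
  have hwr : (6400 : ℝ) ≤ w := by linarith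
  have hwpos : (0 : ℝ) < w := by linarith
  have hww : w₀ ≤ w := by
    have : (w₀ : ℝ) ≤ w := by linarith
    exact_mod_cast this
  set lam := Real.log w with hlam
  have hlamε : 1 / ε ≤ lam := by
    rw [hlam, Real.le_log_iff_exp_le hwpos]
    linarith
  have hlam1 : 1 ≤ ε * lam := by
    rwa [div_le_iff₀ hε, mul_comm] at hlamε
  have hlam0 : 0 < lam := by nlinarith
  have hlam2 : lam ≤ ε / 8 * ℓ := by
    rw [hlam, Real.log_le_iff_le_exp hwpos]
    exact hwX
  set L := Real.log (4 * (w : ℝ) ^ 2) with hL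
  have hLeq : L = 2 * Real.log 2 + 2 * lam := by
    rw [hL, Real.log_mul (by norm_num) (by positivity), Real.log_pow,
      show (4 : ℝ) = 2 ^ 2 by norm_num, Real.log_pow]
    push_cast
    ring
  have hL0 : 0 < L := by rw [hLeq]; linarith
  have hL1 : L ≤ 2 * lam * (1 + ε) := by
    rw [hLeq]
    nlinarith
  set b := (1 - ε) * ℓ / (2 * L) with hb
  have hb0 : 0 ≤ b := div_nonneg (mul_nonneg (by linarith) hℓ0.le) (by positivity)
  set u := ⌊b⌋₊ with hu
  have hu1 : (u : ℝ) ≤ b := Nat.floor_le hb0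
  have hu1' : 2 * u * L ≤ (1 - ε) * ℓ := by
    have h1 := hu1
    rw [hb, le_div_iff₀ (by positivity)] at h1
    linarith
  have hu2 : b - 1 ≤ u := by
    have := Nat.lt_floor_add_one b
    linarith
  have hbb : (1 / 4 - ε / 2) * (ℓ / lam) ≤ b := by
    rw [hb, mul_div_assoc', div_le_div_iff₀ hlam0 (by positivity)]
    have h1 : (1 / 4 - ε / 2) * (2 * L) ≤ (1 - ε) * lam := by
      have h2 : (1 / 4 - ε / 2) * (2 * L) ≤ (1 / 4 - ε / 2) * (2 * (2 * lam * (1 + ε))) :=
        mul_le_mul_of_nonneg_left (by linarith) (by linarith)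
      refine h2.trans ?_
      have h3 : (1 / 4 - ε / 2) * (2 * (2 * lam * (1 + ε))) = lam * ((1 - 2 * ε) * (1 + ε)) := by
        ring
      rw [h3, mul_comm (1 - ε) lam]
      apply mul_le_mul_of_nonneg_left _ hlam0.le
      nlinarith
    calc (1 / 4 - ε / 2) * ℓ * (2 * L) = (1 / 4 - ε / 2) * (2 * L) * ℓ := by ring
      _ ≤ (1 - ε) * lam * ℓ := mul_le_mul_of_nonneg_right h1 hℓ0.le
      _ = (1 - ε) * ℓ * lam := by ring
  have hεℓ : (1 - ε) * ℓ ≤ ℓ := by
    have : 0 ≤ ε * ℓ := by positivity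
    linarith
  have hεℓ2 : 3 / 4 * ℓ ≤ (1 - ε) * ℓ := mul_le_mul_of_nonneg_right (by linarith) hℓ0.le
  have hlam3 : lam ≤ ℓ / 32 := by
    have : ε / 8 * ℓ ≤ 1 / 32 * ℓ := mul_le_mul_of_nonneg_right (by linarith) hℓ0.le
    linarith
  have hu3 : 1 ≤ u := by
    rw [hu, Nat.one_le_floor_iff, hb, le_div_iff₀ (by positivity), hLeq]
    linarith
  have hKX : 4 * K ≤ X := by
    have h1 : (4 * K : ℝ) ≤ X := by
      rw [← hexp]
      rwa [← Real.log_le_iff_le_exp (by linarith)]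
    exact_mod_cast h1
  have hmain := hw₀ w hww X K u hK1 hKX hu3 (by
    rw [← hL]
    have h1 : 4 * u * L ≤ 2 * ℓ := by linarith
    have h2 : (w : ℝ) ≤ (w : ℝ) ^ 2 := by
      rw [sq]
      exact le_mul_of_one_le_left hwpos.le (by linarith)
    linarith)
  rw [← hL, ← hC₁, ← hC₂] at hmain
  -- the target
  set a := (1 / 4 - ε) * ℓ / lam with ha
  have ha0 : 0 ≤ a := div_nonneg (mul_nonneg (by linarith) hℓ0.le) hlam0.le
  have hbase : 0 < 64 * ℓ / w := by positivity
  set Y := Real.log (w / (32 * ℓ)) with hY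
  have hYeq : Y = lam - Real.log (32 * ℓ) := by
    rw [hY, Real.log_div hwpos.ne' (by positivity)]
  have hY1 : Real.log 2 ≤ Y := by
    rw [hY]
    apply Real.log_le_log (by norm_num)
    rw [le_div_iff₀ (by positivity)]
    linarith
  have hRHS : Real.exp (-(a * Y)) ≤ (64 * ℓ / w) ^ a := by
    rw [Real.rpow_def_of_pos hbase]
    apply Real.exp_le_exp.2
    have h1 : Real.log (64 * ℓ / w) = Real.log 2 - Y := by
      rw [hY, ← Real.log_div (by norm_num) (by positivity)]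
      congr 1
      field_simp
      norm_num
    rw [h1]
    have h2 : 0 ≤ Real.log 2 * a := mul_nonneg (by linarith) ha0
    linarith
  have hRHS2 : Real.exp (3 / 4 * ℓ) ≤ X * (64 * ℓ / w) ^ a := by
    have h1 : -(ℓ / 4) ≤ Real.log (64 * ℓ / w) * a := by
      rw [Real.log_div (by positivity) hwpos.ne', sub_mul]
      have h2 : 0 ≤ Real.log (64 * ℓ) * a := mul_nonneg (Real.log_nonneg (by linarith)) ha0
      have h3 : Real.log w * a = (1 / 4 - ε) * ℓ := by
        rw [← hlam, ha]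
        field_simp
      rw [h3]
      have h4 : 0 ≤ ε * ℓ := by positivity
      linarith
    rw [Real.rpow_def_of_pos hbase, ← hexp, ← Real.exp_add]
    apply Real.exp_le_exp.2
    linarith
  -- first term
  have hkey : Real.log (3 * C₁) ≤ (b - 1 - a) * Y := by
    have hY0 : 0 < Y := by linarith
    set q := ε / 2 * (ℓ / lam) with hq
    have h1 : q ≤ b - a := by
      have h2 : q = (1 / 4 - ε / 2) * (ℓ / lam) - a := by
        rw [hq, ha]
        ring
      linarith
    have hq4 : 4 ≤ q := by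
      rw [hq, mul_div_assoc', le_div_iff₀ hlam0]
      linarith
    have h2 : (q - 1) * Y ≤ (b - 1 - a) * Y := mul_le_mul_of_nonneg_right (by linarith) hY0.le
    refine le_trans ?_ h2
    by_cases hcase : lam / 2 ≤ Y
    · have h3 : 3 / 4 * q ≤ q - 1 := by linarith
      have h4 : q * lam = ε / 2 * ℓ := by
        rw [hq]
        field_simp
      calc Real.log (3 * C₁) ≤ 3 / 16 * ε * ℓ := e5
        _ = 3 / 4 * q * (lam / 2) := by
            have : 3 / 4 * q * (lam / 2) = 3 / 8 * (q * lam) := by ring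
            rw [this, h4]
            ring
        _ ≤ 3 / 4 * q * Y := mul_le_mul_of_nonneg_left hcase (by linarith)
        _ ≤ (q - 1) * Y := mul_le_mul_of_nonneg_right h3 hY0.le
    · push Not at hcase
      have h3 : lam < 2 * Real.log (32 * ℓ) := by linarith
      have h4 : Real.log (3 * C₁) / Real.log 2 + 1 ≤ q := by
        rw [hq, mul_div_assoc', le_div_iff₀ hlam0]
        have h5 : 0 ≤ Real.log (3 * C₁) / Real.log 2 + 1 := by
          have : 0 ≤ Real.log (3 * C₁) / Real.log 2 := div_nonneg hlC (by linarith)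
          linarith
        have h6 := mul_le_mul_of_nonneg_left h3.le h5
        linarith
      calc Real.log (3 * C₁) = Real.log (3 * C₁) / Real.log 2 * Real.log 2 := by field_simp
        _ ≤ Real.log (3 * C₁) / Real.log 2 * Y :=
            mul_le_mul_of_nonneg_left hY1 (div_nonneg hlC (by linarith))
        _ ≤ (q - 1) * Y := mul_le_mul_of_nonneg_right (by linarith) hY0.le
  have hfirst : 3 * (C₁ * (64 * u * L / w) ^ u) ≤ (64 * ℓ / w) ^ a := by
    refine le_trans ?_ hRHS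
    have h1 : 64 * u * L / w ≤ Real.exp (-Y) := by
      rw [Real.exp_neg, hY, Real.exp_log (by positivity), inv_div]
      apply div_le_div_of_nonneg_right _ hwpos.le
      linarith
    have h2 : (64 * u * L / w) ^ u ≤ Real.exp (-(u * Y)) := by
      calc (64 * u * L / w) ^ u ≤ Real.exp (-Y) ^ u := pow_le_pow_left₀ (by positivity) h1 u
        _ = _ := by
            rw [← Real.exp_nat_mul]
            congr 1
            ring
    have h3 : Real.exp (-(u * Y)) ≤ Real.exp (-((b - 1) * Y)) := by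
      apply Real.exp_le_exp.2
      have : (b - 1) * Y ≤ u * Y := mul_le_mul_of_nonneg_right hu2 (by linarith)
      linarith
    calc 3 * (C₁ * (64 * u * L / w) ^ u) = 3 * C₁ * (64 * u * L / w) ^ u := by ring
      _ ≤ 3 * C₁ * Real.exp (-((b - 1) * Y)) :=
          mul_le_mul_of_nonneg_left (h2.trans h3) (by linarith)
      _ = Real.exp (Real.log (3 * C₁) + -((b - 1) * Y)) := by
          rw [Real.exp_add, Real.exp_log (by linarith)]
      _ ≤ Real.exp (-(a * Y)) := by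
          apply Real.exp_le_exp.2
          linarith
  -- second term
  have hsecond : ((4 * (w : ℝ) ^ 2) ^ (2 * u)) ^ (K + 1) / (X : ℝ) ^ (K - 1) ≤ 1 := by
    rw [div_le_one (by positivity)]
    have h1 : (4 * (w : ℝ) ^ 2) ^ (2 * u) = Real.exp (2 * u * L) := by
      rw [hL, ← Real.exp_log (show (0 : ℝ) < 4 * (w : ℝ) ^ 2 by positivity), Real.log_exp,
        ← Real.exp_nat_mul]
      push_cast
      rfl
    rw [h1, ← hexp, ← Real.exp_nat_mul, ← Real.exp_nat_mul]
    apply Real.exp_le_exp.2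
    have h2 : ((K - 1 : ℕ) : ℝ) = K - 1 := by
      rw [Nat.cast_sub hK1, Nat.cast_one]
    rw [h2]
    push_cast
    have h3 : ((K : ℝ) + 1) * (2 * u * L) ≤ ((K : ℝ) + 1) * ((1 - ε) * ℓ) :=
      mul_le_mul_of_nonneg_left hu1' (by positivity)
    have h4 : 2 * ℓ ≤ ε * (K + 1) * ℓ := mul_le_mul_of_nonneg_right hKη hℓ0.le
    have h5 : ((K : ℝ) + 1) * ((1 - ε) * ℓ) = (K + 1) * ℓ - ε * (K + 1) * ℓ := by ring
    linarith
  -- conclusion
  have hcount : ((chainSet w X).ncard : ℝ) ≤ 4 * (w : ℝ) ^ 2 + 1 + ((SS w X).card : ℝ) := by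
    have h1 := chainSet_le_SM w (4 * w ^ 2) X (by
      have : 0 < w := by exact_mod_cast hwpos
      omega)
    rw [← SS_eq_SM] at h1
    exact_mod_cast h1
  have hw2 : (w : ℝ) ^ 2 ≤ Real.exp (ℓ / 16) := by
    have h1 : (w : ℝ) = Real.exp lam := (Real.exp_log hwpos).symm
    rw [h1, ← Real.exp_nat_mul]
    apply Real.exp_le_exp.2
    push_cast
    linarith
  have a1 : 3 * (C₁ * X * (64 * u * L / w) ^ u) ≤ X * (64 * ℓ / w) ^ a := by
    calc 3 * (C₁ * X * (64 * u * L / w) ^ u) = X * (3 * (C₁ * (64 * u * L / w) ^ u)) := by ring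
      _ ≤ _ := mul_le_mul_of_nonneg_left hfirst hXpos.le
  have a2 := mul_le_mul_of_nonneg_left hsecond hC₂0
  have a3 : 3 * (4 * (w : ℝ) ^ 2 + 1 + C₂) ≤ X * (64 * ℓ / w) ^ a := by
    refine le_trans ?_ (e7.trans hRHS2)
    linarith
  rw [mul_one] at a2
  have a4 : 0 ≤ X * (64 * ℓ / w) ^ a := by positivity
  linarith

end Pool.Agent.Lib.MP_39b545_nt.Long
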