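import Pool.Agent.Lib.MP_39b545_nt.Long.UT2

/-!
# The uniform bound for all lengths
-/

set_option autoImplicit false

namespace Pool.Agent.Lib.MP_39b545_nt.Long

open Finset Filter Topology

theorem chainSet_empty (k X : ℕ) (h : X + 3 < k) : chainSet k X = ∅ := by
  rw [Set.eq_empty_iff_forall_notMem]
  rintro p ⟨h1, h2⟩
  have h0 : p ≠ 0 := by
    rintro rfl
    have := h2 0 (by omega)
    rw [pow_zero, one_mul] at this
    exact Nat.not_prime_one this
  have hp : p.Prime := by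
    have := h2 0 (by omega)
    rw [pow_zero, one_mul] at this
    rwa [Nat.sub_add_cancel (Nat.pos_of_ne_zero h0)] at this
  by_cases hp2 : p = 2
  · subst hp2
    have := h2 3 (by omega)
    norm_num at this
  have hp3 : 3 ≤ p := by
    have := hp.two_le
    omega
  have h3 := h2 (p - 1) (by omega)
  have : Fact p.Prime := ⟨hp⟩
  have h5 : (2 : ZMod p) ≠ 0 := by
    intro h
    have : ((2 : ℕ) : ZMod p) = 0 := by exact_mod_cast h
    rw [ZMod.natCast_eq_zero_iff] at this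
    have := Nat.le_of_dvd (by norm_num) this
    omega
  have h6 : p ∣ 2 ^ (p - 1) * (p - 1) + 1 := by
    rw [← ZMod.natCast_eq_zero_iff]
    push_cast [Nat.cast_sub hp.one_lt.le]
    rw [ZMod.pow_card_sub_one_eq_one h5]
    simp
  have h7 := (Nat.dvd_prime h3).1 h6
  have h8 : 2 ^ 1 ≤ 2 ^ (p - 1) := Nat.pow_le_pow_right (by norm_num) (by omega)
  have h9 : 2 * (p - 1) ≤ 2 ^ (p - 1) * (p - 1) := Nat.mul_le_mul_right _ h8
  rcases h7 with h7 | h7 <;> omega

theorem high_bound (ε : ℝ) (hε : 0 < ε) (hε1 : ε ≤ 1 / 4) : ∃ C : ℝ, 64 ≤ C ∧ ∀ X k : ℕ,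
    2 ≤ X → 2 ≤ k → ((chainSet k X).ncard : ℝ) ≤
      X * (C * Real.log X / k) ^ ((1 / 4 - ε) * Real.log X / Real.log k) := by
  obtain ⟨ℓ₁, hℓ₁⟩ := mid_bound ε hε hε1
  obtain ⟨ℓ₂, hℓ₂⟩ := mid_bound (ε / 2) (by linarith) (by linarith)
  have hl2 := Real.log_two_gt_d9
  have E1 : ∀ᶠ ℓ : ℝ in atTop, ℓ₁ ≤ ℓ ∧ ℓ₂ ≤ ℓ ∧ 64 * (32 / ε) ≤ ℓ ∧ 100 ≤ ℓ :=
    (eventually_ge_atTop _).and ((eventually_ge_atTop _).and
      ((eventually_ge_atTop _).and (eventually_ge_atTop _)))
  have E2 : ∀ᶠ ℓ : ℝ in atTop, 64 * ℓ + 1 ≤ Real.exp (ε / 16 * ℓ) := by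
    have h := (isLittleO_pow_exp_pos_mul_atTop 1 (b := ε / 16) (by positivity)).def
      (c := 1 / 65) (by norm_num)
    filter_upwards [h, eventually_ge_atTop 1] with x hx hx1
    rw [pow_one, Real.norm_of_nonneg (by linarith), Real.norm_of_nonneg (by positivity)] at hx
    linarith
  have E3 : ∀ᶠ ℓ : ℝ in atTop, 8 / ε * Real.log (64 * ℓ) ≤ ε / 2 * ℓ := by
    have h1 : ∀ᶠ ℓ : ℝ in atTop, Real.log ℓ ≤ (ε * ε / 32) * ℓ := by
      have h := Real.isLittleO_log_id_atTop.def (c := ε * ε / 32) (by positivity)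
      filter_upwards [h, eventually_ge_atTop 1] with x hx hx1
      rw [Real.norm_of_nonneg (Real.log_nonneg hx1), id, Real.norm_of_nonneg (by linarith)] at hx
      exact hx
    filter_upwards [h1, eventually_ge_atTop (Real.log 64 / (ε * ε / 32)), eventually_ge_atTop 1]
      with ℓ a b c
    rw [Real.log_mul (by norm_num) (by linarith)]
    rw [div_le_iff₀ (by positivity)] at b
    have h2 : Real.log 64 + Real.log ℓ ≤ ε * ε / 16 * ℓ := by linarith
    calc 8 / ε * (Real.log 64 + Real.log ℓ) ≤ 8 / ε * (ε * ε / 16 * ℓ) :=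
          mul_le_mul_of_nonneg_left h2 (by positivity)
      _ = ε / 2 * ℓ := by field_simp; norm_num
  obtain ⟨ℓ₀, hℓ₀⟩ := eventually_atTop.1 (E1.and (E2.and E3))
  set C := max 64 ((Real.exp ℓ₀ + 4) / Real.log 2) with hC
  have hC64 : 64 ≤ C := le_max_left _ _
  have hCbig : Real.exp ℓ₀ + 4 ≤ C * Real.log 2 := by
    have h1 : (Real.exp ℓ₀ + 4) / Real.log 2 ≤ C := le_max_right _ _
    rwa [div_le_iff₀ (by linarith)] at h1
  refine ⟨C, hC64, fun X k hX hk => ?_⟩
  have hkr : (2 : ℝ) ≤ k := by exact_mod_cast hk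
  have hXr : (2 : ℝ) ≤ X := by exact_mod_cast hX
  have hlk : Real.log 2 ≤ Real.log k := Real.log_le_log (by norm_num) hkr
  have hlX : Real.log 2 ≤ Real.log X := Real.log_le_log (by norm_num) hXr
  set ℓ := Real.log X with hℓ
  have hexp : Real.exp ℓ = X := Real.exp_log (by linarith)
  have hℓ0 : 0 < ℓ := by linarith
  have hlk0 : 0 < Real.log k := by linarith
  have hX0 : (0 : ℝ) < X := by linarith
  set a := (1 / 4 - ε) * ℓ / Real.log k with ha
  have ha0 : 0 ≤ a := div_nonneg (mul_nonneg (by linarith) hℓ0.le) hlk0.le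
  have hpos : 0 < C * ℓ / k := by positivity
  by_cases htriv : (k : ℝ) ≤ C * ℓ
  · have h1 : 1 ≤ C * ℓ / k := by
      rw [le_div_iff₀ (by linarith), one_mul]
      exact htriv
    have h2 := chainSet_le k X (by omega)
    calc ((chainSet k X).ncard : ℝ) ≤ X := by exact_mod_cast h2
      _ ≤ _ := le_mul_of_one_le_right (by linarith) (Real.one_le_rpow h1 ha0)
  push Not at htriv
  by_cases hsmall : ℓ < ℓ₀
  · have h1 : (X : ℝ) < Real.exp ℓ₀ := by
      rw [← hexp]
      exact Real.exp_lt_exp.2 hsmall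
    have h2 : C * Real.log 2 ≤ C * ℓ := mul_le_mul_of_nonneg_left hlX (by linarith)
    have h3 : (X : ℝ) + 3 < k := by linarith
    rw [chainSet_empty k X (by exact_mod_cast h3), Set.ncard_empty, Nat.cast_zero]
    positivity
  push Not at hsmall
  obtain ⟨⟨e1, e2, e3, e4⟩, e5, e6⟩ := hℓ₀ ℓ hsmall
  have h64 : 64 * ℓ ≤ k := by
    have : 64 * ℓ ≤ C * ℓ := mul_le_mul_of_nonneg_right hC64 hℓ0.le
    linarith
  by_cases hmid : (k : ℝ) ≤ Real.exp (ε / 8 * ℓ)
  · refine (hℓ₁ X k e1 h64 hmid).trans ?_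
    apply mul_le_mul_of_nonneg_left _ hX0.le
    apply Real.rpow_le_rpow (by positivity) _ ha0
    apply div_le_div_of_nonneg_right _ (by linarith)
    exact mul_le_mul_of_nonneg_right hC64 hℓ0.le
  push Not at hmid
  -- very long chains
  set k' := ⌊Real.exp (ε / 16 * ℓ)⌋₊ with hk'
  have hk'1 : (k' : ℝ) ≤ Real.exp (ε / 16 * ℓ) := Nat.floor_le (Real.exp_pos _).le
  have hk'2 : 64 * ℓ ≤ k' := by
    have := Nat.lt_floor_add_one (Real.exp (ε / 16 * ℓ))
    rw [← hk'] at this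
    linarith
  have hk'3 : Real.exp (ε / 32 * ℓ) ≤ k' := by
    have h1 := Nat.lt_floor_add_one (Real.exp (ε / 16 * ℓ))
    rw [← hk'] at h1
    have h2 : Real.exp (ε / 16 * ℓ) = Real.exp (ε / 32 * ℓ) * Real.exp (ε / 32 * ℓ) := by
      rw [← Real.exp_add]
      congr 1
      ring
    have h3 : 64 * (32 / ε) * (ε / 32) ≤ ℓ * (ε / 32) :=
      mul_le_mul_of_nonneg_right e3 (by positivity)
    have h4 : 64 * (32 / ε) * (ε / 32) = 64 := by field_simp
    have h5 := Real.add_one_le_exp (ε / 32 * ℓ)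
    nlinarith
  have hkk : k' ≤ k := by
    have h1 : (k' : ℝ) ≤ k := by
      have h2 : Real.exp (ε / 16 * ℓ) ≤ Real.exp (ε / 8 * ℓ) := by
        apply Real.exp_le_exp.2
        have : 0 ≤ ε * ℓ := by positivity
        linarith
      linarith
    exact_mod_cast h1
  have hk'pos : (0 : ℝ) < k' := lt_of_lt_of_le (Real.exp_pos _) hk'3
  have h1 := hℓ₂ X k' e2 hk'2 (by
    have : ε / 2 / 8 * Real.log X = ε / 16 * ℓ := by ring
    rw [this]
    exact hk'1)
  have h2 : ((chainSet k X).ncard : ℝ) ≤ (chainSet k' X).ncard := by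
    exact_mod_cast chainSet_anti hkk X
  refine h2.trans (h1.trans ?_)
  apply mul_le_mul_of_nonneg_left _ hX0.le
  rw [← hℓ]
  have hlk' : ε / 32 * ℓ ≤ Real.log k' := by
    rw [Real.le_log_iff_exp_le hk'pos]
    exact hk'3
  have hlk'0 : 0 < Real.log k' := lt_of_lt_of_le (by positivity) hlk'
  set a' := (1 / 4 - ε / 2) * ℓ / Real.log k' with ha'
  have ha'0 : 0 ≤ a' := div_nonneg (mul_nonneg (by linarith) hℓ0.le) hlk'0.le
  have ha'1 : a' ≤ 8 / ε := by
    rw [ha', div_le_div_iff₀ hlk'0 hε]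
    have h3 : 8 * (ε / 32 * ℓ) ≤ 8 * Real.log k' := by linarith
    have h4 : (1 / 4 - ε / 2) * ℓ * ε ≤ 1 / 4 * ℓ * ε := by
      apply mul_le_mul_of_nonneg_right _ hε.le
      apply mul_le_mul_of_nonneg_right _ hℓ0.le
      linarith
    linarith
  have hlog64 : 0 ≤ Real.log (64 * ℓ) := Real.log_nonneg (by linarith)
  have hlogC : 0 ≤ Real.log (C * ℓ) := by
    apply Real.log_nonneg
    nlinarith
  rw [Real.rpow_def_of_pos (by positivity), Real.rpow_def_of_pos hpos]
  apply Real.exp_le_exp.2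
  rw [Real.log_div (by positivity) hk'pos.ne', Real.log_div (by positivity) (by linarith),
    sub_mul, sub_mul]
  have h5 : Real.log k' * a' = (1 / 4 - ε / 2) * ℓ := by
    rw [ha']
    field_simp
  have h6 : Real.log k * a = (1 / 4 - ε) * ℓ := by
    rw [ha]
    field_simp
  rw [h5, h6]
  have h7 : Real.log (64 * ℓ) * a' ≤ ε / 2 * ℓ := by
    calc Real.log (64 * ℓ) * a' ≤ Real.log (64 * ℓ) * (8 / ε) :=
          mul_le_mul_of_nonneg_left ha'1 hlog64
      _ = 8 / ε * Real.log (64 * ℓ) := by ring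
      _ ≤ _ := e6
  have h8 : 0 ≤ Real.log (C * ℓ) * a := mul_nonneg hlogC ha0
  linarith

/-- **Uniform bound for the number of chains of length at least `k`.** -/
theorem uniform_bound (ε : ℝ) (hε : 0 < ε) (hε1 : ε ≤ 1 / 4) : ∃ C : ℝ, 0 < C ∧ ∀ X k : ℕ,
    2 ≤ X → 2 ≤ k →
    ({p : ℕ | p ≤ X ∧ ∀ i < k, (2 ^ i * (p - 1) + 1).Prime}.ncard : ℝ) ≤
      X * min ((C * k * Real.log k / Real.log X) ^ k)
        ((C * Real.log X / k) ^ ((1 / 4 - ε) * Real.log X / Real.log k)) := by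
  obtain ⟨C₁, hC₁, h⟩ := high_bound ε hε hε1
  set C := max C₁ (640 * Real.exp 8) with hC
  have hC1 : C₁ ≤ C := le_max_left _ _
  have hC2 : 640 * Real.exp 8 ≤ C := le_max_right _ _
  refine ⟨C, by linarith, fun X k hX hk => ?_⟩
  have hkr : (2 : ℝ) ≤ k := by exact_mod_cast hk
  have hXr : (2 : ℝ) ≤ X := by exact_mod_cast hX
  have hlk : 0 < Real.log k := Real.log_pos (by linarith)
  have hlX : 0 < Real.log X := Real.log_pos (by linarith)
  have hX0 : (0 : ℝ) ≤ X := by linarith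
  have ha0 : 0 ≤ (1 / 4 - ε) * Real.log X / Real.log k :=
    div_nonneg (mul_nonneg (by linarith) hlX.le) hlk.le
  rw [mul_min_of_nonneg _ _ hX0]
  apply le_min
  · refine (low_bound k X hk hX).trans ?_
    apply mul_le_mul_of_nonneg_left _ hX0
    apply pow_le_pow_left₀ (by positivity)
    apply div_le_div_of_nonneg_right _ hlX.le
    apply mul_le_mul_of_nonneg_right _ hlk.le
    exact mul_le_mul_of_nonneg_right hC2 (by linarith)
  · refine (h X k hX hk).trans ?_
    apply mul_le_mul_of_nonneg_left _ hX0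
    apply Real.rpow_le_rpow (by positivity) _ ha0
    apply div_le_div_of_nonneg_right _ (by linarith)
    exact mul_le_mul_of_nonneg_right hC1 hlX.le

end Pool.Agent.Lib.MP_39b545_nt.Long
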